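import Mathlib

/-!
Infinite product tools: cons decomposition, marked Poisson samples, Mecke formula, sign flips,
self-similar trees.
-/

open MeasureTheory ProbabilityTheory Finset
open scoped ENNReal NNReal BigOperators

namespace Pool.Agent.R965.SG

section Opt

variable {E : Type*} [MeasurableSpace E]

lemma map_option {κ : Type*} (ν : Measure E) [IsProbabilityMeasure ν] :
    (ν.prod (Measure.infinitePi (fun _ : κ => ν))).map
      (fun (p : E × (κ → E)) (i : Option κ) => i.elim p.1 p.2)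
      = Measure.infinitePi (fun _ : Option κ => ν) := by
  classical
  have hmeas : Measurable (fun (p : E × (κ → E)) (i : Option κ) => i.elim p.1 p.2) := by
    rw [measurable_pi_iff]
    intro i
    cases i with
    | none => exact measurable_fst
    | some k => exact (measurable_pi_apply k).comp measurable_snd
  refine Measure.eq_infinitePi _ fun s t ht => ?_
  rw [Measure.map_apply hmeas (.pi s.countable_toSet fun _ _ ↦ ht _)]
  have hpre : (fun (p : E × (κ → E)) (i : Option κ) => i.elim p.1 p.2) ⁻¹' ((s : Set (Option κ)).pi t)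
      = (if none ∈ s then t none else Set.univ) ×ˢ
        ((Finset.eraseNone s : Finset κ) : Set κ).pi (fun k => t (some k)) := by
    ext p
    simp only [Set.mem_preimage, Set.mem_pi, Finset.mem_coe, Option.forall, Option.elim_none,
      Option.elim_some, Set.mem_prod, Finset.mem_eraseNone]
    split_ifs with h
    · simp [h]
    · simp [h]
  rw [hpre, Measure.prod_prod, Measure.infinitePi_pi _ (fun k _ => ht _)]
  by_cases h : none ∈ s
  · rw [if_pos h]
    have h1 : s = insert none ((Finset.eraseNone s).map Function.Embedding.some) := by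
      rw [Finset.map_some_eraseNone, Finset.insert_erase h]
    conv_rhs => rw [h1]
    rw [Finset.prod_insert (by simp), Finset.prod_map]
    rfl
  · rw [if_neg h, measure_univ, one_mul]
    have h1 : s = ((Finset.eraseNone s).map Function.Embedding.some) := by
      rw [Finset.map_some_eraseNone, Finset.erase_eq_of_notMem h]
    conv_rhs => rw [h1]
    rw [Finset.prod_map]
    rfl

lemma map_equiv {κ ι : Type*} (e : κ ≃ ι) (ν : Measure E) [IsProbabilityMeasure ν] :
    (Measure.infinitePi (fun _ : κ => ν)).map (fun (f : κ → E) (i : ι) => f (e.symm i))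
      = Measure.infinitePi (fun _ : ι => ν) := by
  have h := Measure.infinitePi_map_piCongrLeft (μ := fun _ : ι => ν) e
  rw [← h]
  congr 1
  ext f i
  obtain ⟨a, rfl⟩ := e.surjective i
  simp [MeasurableEquiv.piCongrLeft, Equiv.piCongrLeft]

lemma split_option {κ ι : Type*} (e : Option κ ≃ ι) (ν : Measure E) [IsProbabilityMeasure ν] :
    (Measure.infinitePi (fun _ : ι => ν)).map
      (fun f : ι → E => (f (e none), fun k => f (e (some k))))
      = ν.prod (Measure.infinitePi (fun _ : κ => ν)) := by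
  rw [← map_equiv e ν, ← map_option ν]
  have hmeas : Measurable (fun (p : E × (κ → E)) (i : Option κ) => i.elim p.1 p.2) := by
    rw [measurable_pi_iff]
    intro i
    cases i with
    | none => exact measurable_fst
    | some k => exact (measurable_pi_apply k).comp measurable_snd
  have hm2 : Measurable (fun (f : Option κ → E) (i : ι) => f (e.symm i)) := by fun_prop
  have hm3 : Measurable (fun f : ι → E => (f (e none), fun k => f (e (some k)))) := by fun_prop
  rw [Measure.map_map hm2 hmeas, Measure.map_map hm3 (hm2.comp hmeas)]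
  conv_rhs => rw [← Measure.map_id (μ := ν.prod (Measure.infinitePi (fun _ : κ => ν)))]
  congr 1
  ext p
  · simp
  · simp

end Opt

/-- The bijection `none ↦ 0`, `some k ↦ k+1`. -/
def eON : Option ℕ ≃ ℕ where
  toFun o := o.elim 0 Nat.succ
  invFun n := Nat.casesOn n none some
  left_inv o := by cases o <;> rfl
  right_inv n := by cases n <;> rfl

section Seq

variable {I : Type*} [MeasurableSpace I]

/-- i.i.d. sequences. -/
noncomputable def sq (ν : Measure I) : Measure (ℕ → I) := Measure.infinitePi (fun _ : ℕ => ν)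

instance (ν : Measure I) [IsProbabilityMeasure ν] : IsProbabilityMeasure (sq ν) := by
  unfold sq; infer_instance

lemma split_nat (ν : Measure I) [IsProbabilityMeasure ν] :
    (sq ν).map (fun f : ℕ → I => (f 0, fun k => f (k + 1))) = ν.prod (sq ν) :=
  split_option eON ν

lemma lintegral_split (ν : Measure I) [IsProbabilityMeasure ν] (H : I × (ℕ → I) → ℝ≥0∞)
    (hH : Measurable H) :
    ∫⁻ f, H (f 0, fun k => f (k + 1)) ∂(sq ν) = ∫⁻ z, ∫⁻ f, H (z, f) ∂(sq ν) ∂ν := by
  have hm : Measurable (fun f : ℕ → I => (f 0, fun k => f (k + 1))) := by fun_prop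
  rw [← lintegral_prod _ hH.aemeasurable, ← split_nat, lintegral_map hH hm]

variable {A : Type*} [AddCommMonoid A] [MeasurableSpace A] [MeasurableAdd₂ A]

lemma measurable_psum (s : I → A) (hs : Measurable s) (r : ℕ) :
    Measurable (fun f : ℕ → I => ∑ j ∈ range r, s (f j)) := by
  apply Finset.measurable_sum
  intro i _
  exact hs.comp (measurable_pi_apply i)

lemma mecke_fixed (ν : Measure I) [IsProbabilityMeasure ν] (s : I → A) (hs : Measurable s) (r : ℕ) :
    ∀ (G : I × A → ℝ≥0∞), Measurable G →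
    ∫⁻ f, ∑ k ∈ range (r + 1), G (f k, ∑ j ∈ range (r + 1), s (f j)) ∂(sq ν)
      = (r + 1 : ℕ) * ∫⁻ z, ∫⁻ f, G (z, s z + ∑ j ∈ range r, s (f j)) ∂(sq ν) ∂ν := by
  induction r with
  | zero =>
    intro G hG
    have := lintegral_split ν (fun p => G (p.1, s p.1)) (by fun_prop)
    simp only [zero_add, Finset.sum_range_one, Finset.sum_range_zero, add_zero] at this ⊢
    rw [this]
    simp
  | succ r ih =>
    intro G hG
    have hps := measurable_psum s hs (r + 1)
    have hps' := measurable_psum s hs r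
    have h1 := lintegral_split ν (fun p => G (p.1, s p.1 + ∑ j ∈ range (r + 1), s (p.2 j))
      + ∑ k ∈ range (r + 1), G (p.2 k, s p.1 + ∑ j ∈ range (r + 1), s (p.2 j))) (by fun_prop)
    have h2 : ∀ f : ℕ → I, (∑ k ∈ range (r + 1 + 1), G (f k, ∑ j ∈ range (r + 1 + 1), s (f j)))
        = G (f 0, s (f 0) + ∑ j ∈ range (r + 1), s (f (j + 1)))
          + ∑ k ∈ range (r + 1), G (f (k + 1), s (f 0) + ∑ j ∈ range (r + 1), s (f (j + 1))) := by
      intro f
      rw [Finset.sum_range_succ' (fun k => G (f k, _)) (r + 1),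
        Finset.sum_range_succ' (fun j => s (f j)) (r + 1)]
      rw [add_comm (∑ k ∈ range (r + 1), s (f (k + 1)))]
      rw [add_comm]
    simp only at h1
    rw [lintegral_congr h2, h1]
    have h3 : ∀ z, ∫⁻ f, (G (z, s z + ∑ j ∈ range (r + 1), s (f j))
        + ∑ k ∈ range (r + 1), G (f k, s z + ∑ j ∈ range (r + 1), s (f j))) ∂(sq ν)
        = ∫⁻ f, G (z, s z + ∑ j ∈ range (r + 1), s (f j)) ∂(sq ν)
          + (r + 1 : ℕ) * ∫⁻ w, ∫⁻ f, G (w, s z + (s w + ∑ j ∈ range r, s (f j))) ∂(sq ν) ∂ν := by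
      intro z
      rw [lintegral_add_left (by fun_prop)]
      congr 1
      exact ih (fun p => G (p.1, s z + p.2)) (by fun_prop)
    rw [lintegral_congr h3, lintegral_add_left (by fun_prop), lintegral_const_mul _ (by fun_prop)]
    have h4 : ∫⁻ z, ∫⁻ w, ∫⁻ f, G (w, s z + (s w + ∑ j ∈ range r, s (f j))) ∂(sq ν) ∂ν ∂ν
        = ∫⁻ w, ∫⁻ f, G (w, s w + ∑ j ∈ range (r + 1), s (f j)) ∂(sq ν) ∂ν := by
      rw [lintegral_lintegral_swap]
      · refine lintegral_congr fun w => ?_
        have h5 := lintegral_split ν (fun p => G (w, s w + (s p.1 + ∑ j ∈ range r, s (p.2 j))))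
          (by fun_prop)
        simp only at h5
        have h6 : ∀ f : ℕ → I, G (w, s w + ∑ j ∈ range (r + 1), s (f j))
            = G (w, s w + (s (f 0) + ∑ j ∈ range r, s (f (j + 1)))) := by
          intro f
          rw [Finset.sum_range_succ' (fun j => s (f j)) r, add_comm (∑ k ∈ range r, s (f (k + 1)))]
        rw [lintegral_congr h6, h5]
        refine lintegral_congr fun z => lintegral_congr fun f => ?_
        rw [← add_assoc, ← add_assoc, add_comm (s z) (s w)]
      · have : Measurable (fun p : (I × I) × (ℕ → I) =>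
            G (p.1.2, s p.1.1 + (s p.1.2 + ∑ j ∈ range r, s (p.2 j)))) := by fun_prop
        exact (Measurable.lintegral_prod_right' this).aemeasurable
    rw [h4]
    push_cast
    ring

/-- Poisson number together with an i.i.d. sequence. -/
noncomputable def Q (lam : ℝ≥0) (ν : Measure I) : Measure (ℕ × (ℕ → I)) :=
  (poissonMeasure lam).prod (sq ν)

instance (lam : ℝ≥0) (ν : Measure I) [IsProbabilityMeasure ν] :
    IsProbabilityMeasure (Q lam ν) := by
  unfold Q; infer_instance

lemma lintegral_poisson (lam : ℝ≥0) (f : ℕ → ℝ≥0∞) :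
    ∫⁻ r, f r ∂(poissonMeasure lam)
      = ∑' r, ENNReal.ofReal (Real.exp (-lam) * lam ^ r / (r.factorial)) * f r := by
  rw [poissonMeasure, lintegral_sum_measure]
  refine tsum_congr fun r => ?_
  rw [lintegral_smul_measure, lintegral_dirac]
  rfl

lemma measurable_cnt_sum {B : Type*} [AddCommMonoid B] [MeasurableSpace B] [MeasurableAdd₂ B]
    {Z : Type*} [MeasurableSpace Z] (R : Z → ℕ) (hR : Measurable R)
    (g : ℕ → Z → B) (hg : ∀ k, Measurable (g k)) :
    Measurable (fun z => ∑ k ∈ range (R z), g k z) := by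
  have h : ∀ n, Measurable (fun z => ∑ k ∈ range n, g k z) := fun n =>
    Finset.measurable_sum _ (fun k _ => hg k)
  intro t ht
  have : (fun z => ∑ k ∈ range (R z), g k z) ⁻¹' t
      = ⋃ n, (R ⁻¹' {n} ∩ (fun z => ∑ k ∈ range n, g k z) ⁻¹' t) := by
    ext z
    simp
  rw [this]
  exact MeasurableSet.iUnion fun n => (hR (measurableSet_singleton n)).inter (h n ht)

lemma measurable_qsum (s : I → A) (hs : Measurable s) :
    Measurable (fun p : ℕ × (ℕ → I) => ∑ j ∈ range p.1, s (p.2 j)) :=
  measurable_cnt_sum _ measurable_fst _ (fun k => by fun_prop)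

lemma lintegral_Q (lam : ℝ≥0) (ν : Measure I) [IsProbabilityMeasure ν]
    (H : ℕ × (ℕ → I) → ℝ≥0∞) (hH : Measurable H) :
    ∫⁻ p, H p ∂(Q lam ν) = ∑' r, ENNReal.ofReal (Real.exp (-lam) * lam ^ r / (r.factorial))
      * ∫⁻ f, H (r, f) ∂(sq ν) := by
  rw [Q, lintegral_prod _ hH.aemeasurable, lintegral_poisson]

/-- Compound Poisson law of `∑_{j<R} s(y_j)`. -/
noncomputable def CP (lam : ℝ≥0) (ν : Measure I) (s : I → A) : Measure A :=
  (Q lam ν).map (fun p => ∑ j ∈ range p.1, s (p.2 j))

lemma CP_prob (lam : ℝ≥0) (ν : Measure I) [IsProbabilityMeasure ν] (s : I → A)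
    (hs : Measurable s) : IsProbabilityMeasure (CP lam ν s) :=
  Measure.isProbabilityMeasure_map (measurable_qsum s hs).aemeasurable

/-- The Mecke formula for a marked Poisson sample. -/
lemma mecke (lam : ℝ≥0) (ν : Measure I) [IsProbabilityMeasure ν] (s : I → A) (hs : Measurable s)
    (G : I × A → ℝ≥0∞) (hG : Measurable G) :
    ∫⁻ p, ∑ k ∈ range p.1, G (p.2 k, ∑ j ∈ range p.1, s (p.2 j)) ∂(Q lam ν)
      = lam * ∫⁻ z, ∫⁻ c, G (z, s z + c) ∂(CP lam ν s) ∂ν := by
  have hq := measurable_qsum s hs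
  rw [lintegral_Q]
  swap
  · exact measurable_cnt_sum _ measurable_fst _ (fun k => by fun_prop)
  rw [tsum_eq_zero_add' ENNReal.summable]
  simp only [Finset.sum_range_zero, lintegral_zero, mul_zero, zero_add]
  have h1 : ∀ r : ℕ, ENNReal.ofReal (Real.exp (-lam) * lam ^ (r + 1) / ((r + 1).factorial))
      * ∫⁻ f, ∑ k ∈ range (r + 1), G (f k, ∑ j ∈ range (r + 1), s (f j)) ∂(sq ν)
      = lam * (ENNReal.ofReal (Real.exp (-lam) * lam ^ r / (r.factorial))
        * ∫⁻ z, ∫⁻ f, G (z, s z + ∑ j ∈ range r, s (f j)) ∂(sq ν) ∂ν) := by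
    intro r
    rw [mecke_fixed ν s hs r G hG, ← mul_assoc, ← mul_assoc]
    congr 1
    have e1 : ((r + 1 : ℕ) : ℝ≥0∞) = ENNReal.ofReal ((r : ℝ) + 1) := by
      rw [← ENNReal.ofReal_natCast]
      push_cast
      rfl
    have e2 : (lam : ℝ≥0∞) = ENNReal.ofReal (lam : ℝ) := by
      rw [ENNReal.ofReal_coe_nnreal]
    rw [e1, e2, ← ENNReal.ofReal_mul (by positivity), ← ENNReal.ofReal_mul (by positivity)]
    congr 1
    rw [Nat.factorial_succ]
    push_cast
    field_simp
    ring
  rw [tsum_congr h1, ENNReal.tsum_mul_left]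
  congr 1
  have h2 : ∀ z, ∫⁻ c, G (z, s z + c) ∂(CP lam ν s)
      = ∫⁻ p, G (z, s z + ∑ j ∈ range p.1, s (p.2 j)) ∂(Q lam ν) := by
    intro z
    rw [CP, lintegral_map (by fun_prop) hq]
  rw [lintegral_congr h2]
  have h3 : ∀ z, ∫⁻ p, G (z, s z + ∑ j ∈ range p.1, s (p.2 j)) ∂(Q lam ν)
      = ∑' r, ENNReal.ofReal (Real.exp (-lam) * lam ^ r / (r.factorial))
      * ∫⁻ f, G (z, s z + ∑ j ∈ range r, s (f j)) ∂(sq ν) := by
    intro z
    rw [lintegral_Q]
    exact hG.comp (measurable_const.prodMk (measurable_const.add hq))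
  have h4 : ∀ r, Measurable (fun z => ∫⁻ f, G (z, s z + ∑ j ∈ range r, s (f j)) ∂(sq ν)) := by
    intro r
    have hr := measurable_psum s hs r
    have : Measurable (fun p : I × (ℕ → I) => G (p.1, s p.1 + ∑ j ∈ range r, s (p.2 j))) := by
      fun_prop
    exact this.lintegral_prod_right'
  rw [lintegral_congr h3, lintegral_tsum (fun r => ((h4 r).const_mul _).aemeasurable)]
  refine tsum_congr fun r => ?_
  rw [lintegral_const_mul _ (h4 r)]

/-- Cross terms vanish by a sign flip (fixed number of items). -/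
lemma flip_fixed (ν : Measure I) [IsProbabilityMeasure ν] (s : I → A) (hs : Measurable s)
    (a : I → ℝ) (ha : Measurable a) (τ : I → I) (hτ : Measurable τ) (hτν : ν.map τ = ν)
    (haτ : ∀ z, a (τ z) = - a z) (hsτ : ∀ z, s (τ z) = s z) (r : ℕ) :
    ∀ (h : A → ℝ≥0∞), Measurable h →
    ∫⁻ f, ENNReal.ofReal ((∑ k ∈ range r, a (f k)) ^ 2) * h (∑ j ∈ range r, s (f j)) ∂(sq ν)
      = ∫⁻ f, ∑ k ∈ range r, ENNReal.ofReal ((a (f k)) ^ 2) * h (∑ j ∈ range r, s (f j))
          ∂(sq ν) := by
  induction r with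
  | zero => intro h hh; simp
  | succ r ih =>
    intro h hh
    have hps := measurable_psum s hs r
    have hpa := measurable_psum a ha r
    -- left side
    have l1 : ∀ f : ℕ → I, ENNReal.ofReal ((∑ k ∈ range (r + 1), a (f k)) ^ 2)
        * h (∑ j ∈ range (r + 1), s (f j))
        = ENNReal.ofReal ((a (f 0) + ∑ k ∈ range r, a (f (k + 1))) ^ 2)
          * h (s (f 0) + ∑ j ∈ range r, s (f (j + 1))) := by
      intro f
      rw [Finset.sum_range_succ' (fun k => a (f k)) r, Finset.sum_range_succ' (fun j => s (f j)) r,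
        add_comm (∑ k ∈ range r, s (f (k + 1))), add_comm (∑ k ∈ range r, a (f (k + 1)))]
    have r1 : ∀ f : ℕ → I, ∑ k ∈ range (r + 1), ENNReal.ofReal ((a (f k)) ^ 2)
        * h (∑ j ∈ range (r + 1), s (f j))
        = ENNReal.ofReal ((a (f 0)) ^ 2) * h (s (f 0) + ∑ j ∈ range r, s (f (j + 1)))
          + ∑ k ∈ range r, ENNReal.ofReal ((a (f (k + 1))) ^ 2)
            * h (s (f 0) + ∑ j ∈ range r, s (f (j + 1))) := by
      intro f
      rw [Finset.sum_range_succ' (fun k => ENNReal.ofReal ((a (f k)) ^ 2) * _) r,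
        Finset.sum_range_succ' (fun j => s (f j)) r,
        add_comm (∑ k ∈ range r, s (f (k + 1)))]
      rw [add_comm]
    have l2 := lintegral_split ν (fun p => ENNReal.ofReal ((a p.1 + ∑ k ∈ range r, a (p.2 k)) ^ 2)
          * h (s p.1 + ∑ j ∈ range r, s (p.2 j))) (by fun_prop)
    have r2 := lintegral_split ν (fun p => ENNReal.ofReal ((a p.1) ^ 2)
          * h (s p.1 + ∑ j ∈ range r, s (p.2 j))
          + ∑ k ∈ range r, ENNReal.ofReal ((a (p.2 k)) ^ 2)
            * h (s p.1 + ∑ j ∈ range r, s (p.2 j))) (by fun_prop)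
    simp only at l2 r2
    rw [lintegral_congr l1, lintegral_congr r1, l2, r2]
    -- right side: use the induction hypothesis backwards
    have r3 : ∀ z, ∫⁻ f, (ENNReal.ofReal ((a z) ^ 2) * h (s z + ∑ j ∈ range r, s (f j))
          + ∑ k ∈ range r, ENNReal.ofReal ((a (f k)) ^ 2)
            * h (s z + ∑ j ∈ range r, s (f j))) ∂(sq ν)
        = ∫⁻ f, (ENNReal.ofReal ((a z) ^ 2) * h (s z + ∑ j ∈ range r, s (f j))
          + ENNReal.ofReal ((∑ k ∈ range r, a (f k)) ^ 2)
            * h (s z + ∑ j ∈ range r, s (f j))) ∂(sq ν) := by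
      intro z
      rw [lintegral_add_left (by fun_prop), lintegral_add_left (by fun_prop)]
      congr 1
      exact (ih (fun x => h (s z + x)) (by fun_prop)).symm
    rw [lintegral_congr r3]
    -- symmetrize
    set L : I → ℝ≥0∞ := fun z => ∫⁻ f, ENNReal.ofReal ((a z + ∑ k ∈ range r, a (f k)) ^ 2)
          * h (s z + ∑ j ∈ range r, s (f j)) ∂(sq ν) with hL
    have hLm : Measurable L := by
      have : Measurable (fun p : I × (ℕ → I) =>
          ENNReal.ofReal ((a p.1 + ∑ k ∈ range r, a (p.2 k)) ^ 2)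
          * h (s p.1 + ∑ j ∈ range r, s (p.2 j))) := by fun_prop
      exact this.lintegral_prod_right'
    have e1 : ∫⁻ z, L z ∂ν = ∫⁻ z, L (τ z) ∂ν := by
      conv_lhs => rw [← hτν]
      rw [lintegral_map hLm hτ]
    have e2 : ∫⁻ z, L z ∂ν + ∫⁻ z, L (τ z) ∂ν
        = 2 * ∫⁻ z, ∫⁻ f, (ENNReal.ofReal ((a z) ^ 2) * h (s z + ∑ j ∈ range r, s (f j))
          + ENNReal.ofReal ((∑ k ∈ range r, a (f k)) ^ 2)
            * h (s z + ∑ j ∈ range r, s (f j))) ∂(sq ν) ∂ν := by
      rw [← lintegral_add_left hLm, ← lintegral_const_mul']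
      swap
      · norm_num
      refine lintegral_congr fun z => ?_
      simp only [hL]
      rw [← lintegral_add_left (by fun_prop), ← lintegral_const_mul' _ _ (by norm_num)]
      refine lintegral_congr fun f => ?_
      rw [haτ, hsτ, ← add_mul, ← add_mul, ← mul_assoc]
      congr 1
      rw [← ENNReal.ofReal_add (by positivity) (by positivity),
        ← ENNReal.ofReal_add (by positivity) (by positivity)]
      have : (2 : ℝ≥0∞) = ENNReal.ofReal 2 := by simp
      rw [this, ← ENNReal.ofReal_mul (by norm_num)]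
      congr 1
      ring
    rw [← e1, ← two_mul] at e2
    exact (ENNReal.mul_right_inj (by norm_num) (by norm_num)).1 e2

/-- Cross terms vanish by a sign flip. -/
lemma flip (lam : ℝ≥0) (ν : Measure I) [IsProbabilityMeasure ν] (s : I → A) (hs : Measurable s)
    (a : I → ℝ) (ha : Measurable a) (τ : I → I) (hτ : Measurable τ) (hτν : ν.map τ = ν)
    (haτ : ∀ z, a (τ z) = - a z) (hsτ : ∀ z, s (τ z) = s z)
    (h : A → ℝ≥0∞) (hh : Measurable h) :
    ∫⁻ p, ENNReal.ofReal ((∑ k ∈ range p.1, a (p.2 k)) ^ 2) * h (∑ j ∈ range p.1, s (p.2 j))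
        ∂(Q lam ν)
      = lam * ∫⁻ z, ∫⁻ c, ENNReal.ofReal ((a z) ^ 2) * h (s z + c) ∂(CP lam ν s) ∂ν := by
  have hq := measurable_qsum s hs
  have hqa := measurable_qsum a ha
  rw [← mecke lam ν s hs (fun p => ENNReal.ofReal ((a p.1) ^ 2) * h p.2) (by fun_prop)]
  rw [lintegral_Q, lintegral_Q]
  · refine tsum_congr fun r => ?_
    congr 1
    exact flip_fixed ν s hs a ha τ hτ hτν haτ hsτ r h hh
  · exact measurable_cnt_sum _ measurable_fst _ (fun k => by fun_prop)
  · exact ((hqa.pow_const 2).ennreal_ofReal).mul (hh.comp hq)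

/-- Transport of the sample along a map of the items. -/
lemma Q_map {J : Type*} [MeasurableSpace J] (lam : ℝ≥0) (ν : Measure I) [IsProbabilityMeasure ν]
    (g : I → J) (hg : Measurable g) :
    (Q lam ν).map (fun p => (p.1, fun k => g (p.2 k))) = Q lam (ν.map g) := by
  have hp : IsProbabilityMeasure (ν.map g) := Measure.isProbabilityMeasure_map hg.aemeasurable
  have h1 : (sq ν).map (fun f k => g (f k)) = sq (ν.map g) := by
    unfold sq
    exact Measure.infinitePi_map_pi (μ := fun _ : ℕ => ν) (f := fun _ => g) (fun _ => hg)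
  have h2 : (fun p : ℕ × (ℕ → I) => (p.1, fun k => g (p.2 k)))
      = Prod.map id (fun (f : ℕ → I) k => g (f k)) := rfl
  rw [h2, Q, Q, ← h1]
  rw [← Measure.map_prod_map _ _ measurable_id (by fun_prop), Measure.map_id]

lemma ae_Q (lam : ℝ≥0) (ν : Measure I) [IsProbabilityMeasure ν] {P : I → Prop}
    (h : ∀ᵐ z ∂ν, P z) : ∀ᵐ p ∂(Q lam ν), ∀ k, P (p.2 k) := by
  rw [ae_all_iff]
  intro k
  have hmp : MeasurePreserving (fun p : ℕ × (ℕ → I) => p.2 k) (Q lam ν) ν := by
    have h1 : MeasurePreserving (fun f : ℕ → I => f k) (sq ν) ν :=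
      measurePreserving_eval_infinitePi (fun _ : ℕ => ν) k
    have h2 : MeasurePreserving (Prod.snd : ℕ × (ℕ → I) → (ℕ → I)) (Q lam ν) (sq ν) :=
      measurePreserving_snd
    exact h1.comp h2
  exact hmp.quasiMeasurePreserving.ae h

end Seq

end Pool.Agent.R965.SG
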