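import Pool.Agent.R965.SG.Decay

open MeasureTheory ProbabilityTheory Finset Filter Topology
open scoped ENNReal NNReal BigOperators

namespace Pool.Agent.R965.SG

section charfun

variable {E : Type*} [NormedAddCommGroup E] [NormedSpace ℝ E] [MeasurableSpace E] [BorelSpace E]
  [SecondCountableTopology E]

lemma exp_diff (a c : ℝ) :
    ‖Complex.exp (a * Complex.I) - Complex.exp (c * Complex.I)‖ₑ ≤ ‖a - c‖ₑ := by
  have h1 : Complex.exp (a * Complex.I) - Complex.exp (c * Complex.I)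
      = Complex.exp (Complex.I * (c : ℝ)) * (Complex.exp (Complex.I * ((a - c : ℝ) : ℂ)) - 1) := by
    rw [mul_sub, ← Complex.exp_add, mul_one]
    congr 1
    · congr 1
      push_cast
      ring
    · rw [mul_comm]
  rw [h1, enorm_mul, Complex.enorm_exp_I_mul_ofReal, one_mul]
  exact Real.enorm_exp_I_mul_ofReal_sub_one_le

omit [SecondCountableTopology E] in
lemma tendsto_charFunDual {Z : Type*} [MeasurableSpace Z] (κ : ℕ → Measure Z)
    [∀ n, IsProbabilityMeasure (κ n)] (f g : Z → E) (hf : Measurable f) (hg : Measurable g)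
    (m : Measure E) (mn : ℕ → Measure E) (h1 : ∀ n, (κ n).map f = m)
    (h2 : ∀ n, (κ n).map g = mn n)
    (h3 : Tendsto (fun n => ∫⁻ z, ‖f z - g z‖ₑ ∂(κ n)) atTop (𝓝 0)) (L : StrongDual ℝ E) :
    Tendsto (fun n => charFunDual (mn n) L) atTop (𝓝 (charFunDual m L)) := by
  rw [tendsto_iff_edist_tendsto_0]
  have hL : Measurable (fun v : E => Complex.exp (L v * Complex.I)) := by fun_prop
  have hint : ∀ n (h : Z → E), Measurable h →
      Integrable (fun z => Complex.exp (L (h z) * Complex.I)) (κ n) := by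
    intro n h hh
    refine Integrable.of_bound (hL.comp hh).aestronglyMeasurable 1 ?_
    refine Eventually.of_forall fun z => ?_
    rw [Complex.norm_exp_ofReal_mul_I]
  have key : ∀ n, edist (charFunDual (mn n) L) (charFunDual m L)
      ≤ ‖L‖ₑ * ∫⁻ z, ‖f z - g z‖ₑ ∂(κ n) := by
    intro n
    rw [← h1 n, ← h2 n, charFunDual_apply, charFunDual_apply,
      integral_map hg.aemeasurable hL.aestronglyMeasurable,
      integral_map hf.aemeasurable hL.aestronglyMeasurable, edist_eq_enorm_sub,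
      ← integral_sub (hint n g hg) (hint n f hf)]
    refine (enorm_integral_le_lintegral_enorm _).trans ?_
    rw [← lintegral_const_mul' _ _ (by simp)]
    apply lintegral_mono
    intro z
    simp only
    refine (exp_diff _ _).trans ?_
    rw [← map_sub, ← enorm_neg, ← map_neg, neg_sub]
    exact L.le_opENorm _
  refine tendsto_of_tendsto_of_tendsto_of_le_of_le tendsto_const_nhds ?_ (fun _ => zero_le) key
  have := ENNReal.Tendsto.const_mul (a := ‖L‖ₑ) h3 (Or.inr (by simp))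
  simpa using this

end charfun

lemma cs_half {Z : Type*} [MeasurableSpace Z] (κ : Measure Z) (f g : Z → ℝ≥0∞)
    (hf : Measurable f) (hg : Measurable g) :
    ∫⁻ z, f z ^ (1 / 2 : ℝ) * g z ^ (1 / 2 : ℝ) ∂κ
      ≤ (∫⁻ z, f z ∂κ) ^ (1 / 2 : ℝ) * (∫⁻ z, g z ∂κ) ^ (1 / 2 : ℝ) :=
  ENNReal.lintegral_mul_norm_pow_le hf.aemeasurable hg.aemeasurable (by norm_num) (by norm_num)
    (by norm_num)

lemma ofReal_sqrt_sq {t : ℝ} (ht : 0 ≤ t) :
    ENNReal.ofReal t = (ENNReal.ofReal (t ^ 2)) ^ (1 / 2 : ℝ) := by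
  rw [ENNReal.ofReal_rpow_of_nonneg (by positivity) (by norm_num), ← Real.sqrt_eq_rpow,
    Real.sqrt_sq ht]

/-! ### Uniqueness of the `X`-law. -/

/-- the joint increments for two coupled states -/
noncomputable def s2 (b : ℝ) (z : (ℝ × ℝ) × (ℝ × ℝ)) : ℝ≥0 × ℝ≥0 :=
  (sw b (z.1, z.2.1), sw b (z.1, z.2.2))

lemma s2_measurable (b : ℝ) : Measurable (s2 b) := by
  unfold s2; fun_prop

/-- the coupled map -/
noncomputable def T2 (b : ℝ) (lam : ℝ≥0) (DD : Measure (ℝ × ℝ)) (κ : Measure (ℝ × ℝ)) :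
    Measure (ℝ × ℝ) :=
  (CP lam (DD.prod κ) (s2 b)).map (Prod.map Xc Xc)

section T2

variable {b : ℝ} (hb : 0 < b) (lam : ℝ≥0) (DD : Measure (ℝ × ℝ)) [IsProbabilityMeasure DD]
  (κ : Measure (ℝ × ℝ)) [IsProbabilityMeasure κ]

lemma C2_prob : IsProbabilityMeasure (CP lam (DD.prod κ) (s2 b)) :=
  CP_prob lam _ _ (s2_measurable b)

lemma T2_prob : IsProbabilityMeasure (T2 b lam DD κ) := by
  have := C2_prob (b := b) lam DD κ
  exact Measure.isProbabilityMeasure_map (measurable_Xc.prodMap measurable_Xc).aemeasurable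

lemma C2_fst : (CP lam (DD.prod κ) (s2 b)).map Prod.fst = Cm b lam DD (κ.map Prod.fst) := by
  unfold Cm
  rw [CP_marg lam DD κ Prod.fst measurable_fst (sw b) (measurable_sw b)]
  unfold CP
  rw [Measure.map_map measurable_fst (measurable_qsum _ (s2_measurable b))]
  congr 1
  ext p
  simp only [Function.comp, Prod.fst_sum]
  rfl

lemma C2_snd : (CP lam (DD.prod κ) (s2 b)).map Prod.snd = Cm b lam DD (κ.map Prod.snd) := by
  unfold Cm
  rw [CP_marg lam DD κ Prod.snd measurable_snd (sw b) (measurable_sw b)]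
  unfold CP
  rw [Measure.map_map measurable_snd (measurable_qsum _ (s2_measurable b))]
  congr 1
  ext p
  simp only [Function.comp, Prod.snd_sum]
  rfl

lemma T2_fst : (T2 b lam DD κ).map Prod.fst = (Cm b lam DD (κ.map Prod.fst)).map Xc := by
  unfold T2
  rw [Measure.map_map measurable_fst (measurable_Xc.prodMap measurable_Xc), ← C2_fst,
    Measure.map_map measurable_Xc measurable_fst]
  rfl

lemma T2_snd : (T2 b lam DD κ).map Prod.snd = (Cm b lam DD (κ.map Prod.snd)).map Xc := by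
  unfold T2
  rw [Measure.map_map measurable_snd (measurable_Xc.prodMap measurable_Xc), ← C2_snd,
    Measure.map_map measurable_Xc measurable_snd]
  rfl

include hb in
lemma pointwise2 (p : ℕ × (ℕ → (ℝ × ℝ) × (ℝ × ℝ))) (t : ℝ≥0 × ℝ≥0)
    (ht : t = ∑ j ∈ range p.1, s2 b (p.2 j)) :
    |Xc t.1 - Xc t.2| ≤ ∑ k ∈ range p.1, |cl (p.2 k).2.1 - cl (p.2 k).2.2|
      * ((|b * (p.2 k).1.1 * (p.2 k).1.2| * (Xc t.1 / W b (p.2 k).1 (p.2 k).2.1))
        * (|b * (p.2 k).1.1 * (p.2 k).1.2| * (Xc t.2 / W b (p.2 k).1 (p.2 k).2.2))) := by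
  have h1 : (t.1 : ℝ) = ∑ j ∈ range p.1, ((sw b ((p.2 j).1, (p.2 j).2.1) : ℝ≥0) : ℝ) := by
    rw [ht, Prod.fst_sum]; push_cast; rfl
  have h2 : (t.2 : ℝ) = ∑ j ∈ range p.1, ((sw b ((p.2 j).1, (p.2 j).2.2) : ℝ≥0) : ℝ) := by
    rw [ht, Prod.snd_sum]; push_cast; rfl
  have h3 : Xc t.1 - Xc t.2 = Xc t.1 * Xc t.2 * ((t.2 : ℝ) - t.1) := by
    unfold Xc
    have p1 : 0 < 1 + (t.1 : ℝ) := by positivity
    have p2 : 0 < 1 + (t.2 : ℝ) := by positivity
    field_simp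
    ring
  rw [h3, h1, h2, ← Finset.sum_sub_distrib, Finset.mul_sum]
  refine (Finset.abs_sum_le_sum_abs _ _).trans (Finset.sum_le_sum fun k _ => ?_)
  rw [sw_coe hb, sw_coe hb]
  have hW1 := W_pos hb (p.2 k).1 (p.2 k).2.1
  have hW2 := W_pos hb (p.2 k).1 (p.2 k).2.2
  have e : Xc t.1 * Xc t.2 * (b * (p.2 k).1.2 ^ 2 / W b (p.2 k).1 (p.2 k).2.2
      - b * (p.2 k).1.2 ^ 2 / W b (p.2 k).1 (p.2 k).2.1)
      = (cl (p.2 k).2.1 - cl (p.2 k).2.2) * (((b * (p.2 k).1.1 * (p.2 k).1.2)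
        * (Xc t.1 / W b (p.2 k).1 (p.2 k).2.1)) * ((b * (p.2 k).1.1 * (p.2 k).1.2)
        * (Xc t.2 / W b (p.2 k).1 (p.2 k).2.2))) := by
    have e2 : b * (p.2 k).1.2 ^ 2 / W b (p.2 k).1 (p.2 k).2.2
      - b * (p.2 k).1.2 ^ 2 / W b (p.2 k).1 (p.2 k).2.1
      = b * (p.2 k).1.2 ^ 2 * (W b (p.2 k).1 (p.2 k).2.1 - W b (p.2 k).1 (p.2 k).2.2)
        / (W b (p.2 k).1 (p.2 k).2.1 * W b (p.2 k).1 (p.2 k).2.2) := by
      field_simp
    have e3 : W b (p.2 k).1 (p.2 k).2.1 - W b (p.2 k).1 (p.2 k).2.2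
        = b * (p.2 k).1.1 ^ 2 * (cl (p.2 k).2.1 - cl (p.2 k).2.2) := by
      unfold W; ring
    rw [e2, e3]
    field_simp
  rw [e]
  simp only [abs_mul, abs_of_pos (div_pos (Xc_pos t.1) hW1),
    abs_of_pos (div_pos (Xc_pos t.2) hW2)]
  exact le_rfl

include hb in
lemma T2_step (μ μ' : Measure ℝ) (h1 : κ.map Prod.fst = μ) (h2 : κ.map Prod.snd = μ')
    (a a' : ℝ → ℝ≥0∞) (ha : Measurable a) (ha' : Measurable a') :
    ∫⁻ q, ENNReal.ofReal |cl q.1 - cl q.2| * (a q.1 ^ (1 / 2 : ℝ) * a' q.2 ^ (1 / 2 : ℝ))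
        ∂(T2 b lam DD κ)
      ≤ ∫⁻ q, ENNReal.ofReal |cl q.1 - cl q.2|
        * ((LO b lam (DD.prod (Cm b lam DD μ)) a q.1) ^ (1 / 2 : ℝ)
          * (LO b lam (DD.prod (Cm b lam DD μ')) a' q.2) ^ (1 / 2 : ℝ)) ∂κ := by
  have hC := C2_prob (b := b) lam DD κ
  subst h1 h2
  rw [← C2_fst, ← C2_snd]
  have hs2 := s2_measurable b
  have hq := measurable_qsum (s2 b) hs2
  unfold T2
  rw [lintegral_map (by fun_prop) (measurable_Xc.prodMap measurable_Xc)]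
  simp only [Prod.map_fst, Prod.map_snd]
  set C2 := CP lam (DD.prod κ) (s2 b) with hC2
  -- first bound the distance pointwise and use the Mecke formula
  have hW1 : Measurable (fun q : ((ℝ × ℝ) × (ℝ × ℝ)) × (ℝ≥0 × ℝ≥0) => W b q.1.1 q.1.2.1) :=
    (measurable_W b).comp (f := fun q : ((ℝ × ℝ) × (ℝ × ℝ)) × (ℝ≥0 × ℝ≥0) =>
      (q.1.1, q.1.2.1)) (by fun_prop)
  have hW2 : Measurable (fun q : ((ℝ × ℝ) × (ℝ × ℝ)) × (ℝ≥0 × ℝ≥0) => W b q.1.1 q.1.2.2) :=
    (measurable_W b).comp (f := fun q : ((ℝ × ℝ) × (ℝ × ℝ)) × (ℝ≥0 × ℝ≥0) =>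
      (q.1.1, q.1.2.2)) (by fun_prop)
  have ha1 : Measurable (fun q : ((ℝ × ℝ) × (ℝ × ℝ)) × (ℝ≥0 × ℝ≥0) => a (Xc q.2.1)) := by fun_prop
  have ha2 : Measurable (fun q : ((ℝ × ℝ) × (ℝ × ℝ)) × (ℝ≥0 × ℝ≥0) => a' (Xc q.2.2)) := by
    fun_prop
  have hG : Measurable (fun q : ((ℝ × ℝ) × (ℝ × ℝ)) × (ℝ≥0 × ℝ≥0) =>
      ENNReal.ofReal |cl q.1.2.1 - cl q.1.2.2| *
      ((ENNReal.ofReal ((b * q.1.1.1 * q.1.1.2) ^ 2 * (Xc q.2.1 / W b q.1.1 q.1.2.1) ^ 2)
          * a (Xc q.2.1)) ^ (1 / 2 : ℝ)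
        * (ENNReal.ofReal ((b * q.1.1.1 * q.1.1.2) ^ 2 * (Xc q.2.2 / W b q.1.1 q.1.2.2) ^ 2)
          * a' (Xc q.2.2)) ^ (1 / 2 : ℝ))) := by
    fun_prop
  have step1 : ∫⁻ c, ENNReal.ofReal |cl (Xc c.1) - cl (Xc c.2)| * (a (Xc c.1) ^ (1 / 2 : ℝ)
      * a' (Xc c.2) ^ (1 / 2 : ℝ)) ∂C2
      ≤ lam * ∫⁻ z, ∫⁻ c, ENNReal.ofReal |cl z.2.1 - cl z.2.2| *
      ((ENNReal.ofReal ((b * z.1.1 * z.1.2) ^ 2 * (Xc (s2 b z + c).1 / W b z.1 z.2.1) ^ 2)
          * a (Xc (s2 b z + c).1)) ^ (1 / 2 : ℝ)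
        * (ENNReal.ofReal ((b * z.1.1 * z.1.2) ^ 2 * (Xc (s2 b z + c).2 / W b z.1 z.2.2) ^ 2)
          * a' (Xc (s2 b z + c).2)) ^ (1 / 2 : ℝ)) ∂C2 ∂(DD.prod κ) := by
    have hM := mecke lam (DD.prod κ) (s2 b) hs2 _ hG
    simp only at hM
    rw [← hM, hC2, CP, lintegral_map (by fun_prop) hq]
    apply lintegral_mono
    intro p
    simp only
    set t := ∑ j ∈ range p.1, s2 b (p.2 j) with ht
    have hp := pointwise2 hb p t ht
    rw [cl_Xc, cl_Xc]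
    have hsum : ENNReal.ofReal |Xc t.1 - Xc t.2| ≤ ∑ k ∈ range p.1,
        ENNReal.ofReal |cl (p.2 k).2.1 - cl (p.2 k).2.2| *
        ((ENNReal.ofReal ((b * (p.2 k).1.1 * (p.2 k).1.2) ^ 2
            * (Xc t.1 / W b (p.2 k).1 (p.2 k).2.1) ^ 2)) ^ (1 / 2 : ℝ)
        * (ENNReal.ofReal ((b * (p.2 k).1.1 * (p.2 k).1.2) ^ 2
            * (Xc t.2 / W b (p.2 k).1 (p.2 k).2.2) ^ 2)) ^ (1 / 2 : ℝ)) := by
      refine (ENNReal.ofReal_le_ofReal hp).trans ?_
      rw [ENNReal.ofReal_sum_of_nonneg]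
      · refine Finset.sum_le_sum fun k _ => ?_
        have hW1 := W_pos hb (p.2 k).1 (p.2 k).2.1
        have hW2 := W_pos hb (p.2 k).1 (p.2 k).2.2
        have x1 := Xc_pos t.1
        have x2 := Xc_pos t.2
        rw [ENNReal.ofReal_mul (abs_nonneg _), ENNReal.ofReal_mul (by positivity),
          ofReal_sqrt_sq (t := |b * (p.2 k).1.1 * (p.2 k).1.2|
            * (Xc t.1 / W b (p.2 k).1 (p.2 k).2.1)) (by positivity),
          ofReal_sqrt_sq (t := |b * (p.2 k).1.1 * (p.2 k).1.2|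
            * (Xc t.2 / W b (p.2 k).1 (p.2 k).2.2)) (by positivity), mul_pow, mul_pow, sq_abs]
      · intro k _
        have hW1 := W_pos hb (p.2 k).1 (p.2 k).2.1
        have hW2 := W_pos hb (p.2 k).1 (p.2 k).2.2
        have x1 := Xc_pos t.1
        have x2 := Xc_pos t.2
        positivity
    refine (mul_le_mul_left hsum _).trans ?_
    rw [Finset.sum_mul]
    refine Finset.sum_le_sum fun k _ => le_of_eq ?_
    rw [ENNReal.mul_rpow_of_nonneg _ _ (by norm_num), ENNReal.mul_rpow_of_nonneg _ _ (by norm_num)]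
    ring
  refine step1.trans ?_
  -- swap the order of integration
  have hs2c : Measurable (fun q : ((ℝ × ℝ) × (ℝ × ℝ)) × (ℝ≥0 × ℝ≥0) => (q.1, s2 b q.1 + q.2)) := by
    fun_prop
  have hG2 := (hG.comp hs2c).lintegral_prod_right' (ν := C2)
  simp only [Function.comp] at hG2
  rw [lintegral_prod_symm _ hG2.aemeasurable]
  have hG3 : Measurable (fun q : ℝ × ℝ => ∫⁻ m, ∫⁻ c, ENNReal.ofReal |cl q.1 - cl q.2| *
      ((ENNReal.ofReal ((b * m.1 * m.2) ^ 2 * (Xc (s2 b (m, q) + c).1 / W b m q.1) ^ 2)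
          * a (Xc (s2 b (m, q) + c).1)) ^ (1 / 2 : ℝ)
        * (ENNReal.ofReal ((b * m.1 * m.2) ^ 2 * (Xc (s2 b (m, q) + c).2 / W b m q.2) ^ 2)
          * a' (Xc (s2 b (m, q) + c).2)) ^ (1 / 2 : ℝ)) ∂C2 ∂DD) :=
    hG2.lintegral_prod_left' (μ := DD)
  rw [← lintegral_const_mul _ hG3]
  apply lintegral_mono
  intro q
  simp only
  -- the integrands for fixed `q`
  set f1 : (ℝ × ℝ) × ℝ≥0 → ℝ≥0∞ := fun p => ENNReal.ofReal (Kf b q.1 p) * a (Xf b q.1 p) with hf1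
  set f2 : (ℝ × ℝ) × ℝ≥0 → ℝ≥0∞ := fun p => ENNReal.ofReal (Kf b q.2 p) * a' (Xf b q.2 p) with hf2
  have hf1m : Measurable f1 := LO_integrand ha q.1
  have hf2m : Measurable f2 := LO_integrand ha' q.2
  have e1 : ∫⁻ m, ∫⁻ c, ENNReal.ofReal |cl q.1 - cl q.2| *
      ((ENNReal.ofReal ((b * m.1 * m.2) ^ 2 * (Xc (s2 b (m, q) + c).1 / W b m q.1) ^ 2)
          * a (Xc (s2 b (m, q) + c).1)) ^ (1 / 2 : ℝ)
        * (ENNReal.ofReal ((b * m.1 * m.2) ^ 2 * (Xc (s2 b (m, q) + c).2 / W b m q.2) ^ 2)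
          * a' (Xc (s2 b (m, q) + c).2)) ^ (1 / 2 : ℝ)) ∂C2 ∂DD
      = ENNReal.ofReal |cl q.1 - cl q.2| * ∫⁻ r, (f1 (r.1, r.2.1)) ^ (1 / 2 : ℝ)
        * (f2 (r.1, r.2.2)) ^ (1 / 2 : ℝ) ∂(DD.prod C2) := by
    have hF : Measurable (fun r : (ℝ × ℝ) × (ℝ≥0 × ℝ≥0) => (f1 (r.1, r.2.1)) ^ (1 / 2 : ℝ)
        * (f2 (r.1, r.2.2)) ^ (1 / 2 : ℝ)) := by fun_prop
    rw [lintegral_prod _ hF.aemeasurable, ← lintegral_const_mul _ hF.lintegral_prod_right']
    refine lintegral_congr fun m => ?_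
    rw [← lintegral_const_mul _ (by fun_prop)]
    rfl
  have hmargf : ∫⁻ r : (ℝ × ℝ) × (ℝ≥0 × ℝ≥0), f1 (r.1, r.2.1) ∂(DD.prod C2)
      = ∫⁻ p, f1 p ∂(DD.prod (C2.map Prod.fst)) := by
    rw [← prod_map_right DD C2 Prod.fst measurable_fst, lintegral_map hf1m (by fun_prop)]
  have hmargs : ∫⁻ r : (ℝ × ℝ) × (ℝ≥0 × ℝ≥0), f2 (r.1, r.2.2) ∂(DD.prod C2)
      = ∫⁻ p, f2 p ∂(DD.prod (C2.map Prod.snd)) := by
    rw [← prod_map_right DD C2 Prod.snd measurable_snd, lintegral_map hf2m (by fun_prop)]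
  have hcs := cs_half (DD.prod C2) (fun r : (ℝ × ℝ) × (ℝ≥0 × ℝ≥0) => f1 (r.1, r.2.1))
    (fun r => f2 (r.1, r.2.2)) (by fun_prop) (by fun_prop)
  rw [hmargf, hmargs] at hcs
  rw [e1, mul_left_comm]
  apply mul_le_mul_right
  calc lam * ∫⁻ r, (f1 (r.1, r.2.1)) ^ (1 / 2 : ℝ) * (f2 (r.1, r.2.2)) ^ (1 / 2 : ℝ)
        ∂(DD.prod C2)
      ≤ lam * ((∫⁻ p, f1 p ∂(DD.prod (C2.map Prod.fst))) ^ (1 / 2 : ℝ)
        * (∫⁻ p, f2 p ∂(DD.prod (C2.map Prod.snd))) ^ (1 / 2 : ℝ)) := by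
        gcongr
    _ = (lam * ∫⁻ p, f1 p ∂(DD.prod (C2.map Prod.fst))) ^ (1 / 2 : ℝ)
        * (lam * ∫⁻ p, f2 p ∂(DD.prod (C2.map Prod.snd))) ^ (1 / 2 : ℝ) := by
        rw [ENNReal.mul_rpow_of_nonneg _ _ (by norm_num),
          ENNReal.mul_rpow_of_nonneg _ _ (by norm_num)]
        have hl : (lam : ℝ≥0∞) = (lam : ℝ≥0∞) ^ (1 / 2 : ℝ) * (lam : ℝ≥0∞) ^ (1 / 2 : ℝ) := by
          rw [← ENNReal.rpow_add_of_nonneg _ _ (by norm_num) (by norm_num)]
          norm_num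
        conv_lhs => rw [hl]
        ring

end T2

section muUnique

variable {b : ℝ} (hb : 0 < b) (lam : ℝ≥0) (D : Measure ℝ) [IsProbabilityMeasure D]
  (μ μ' : Measure ℝ) [IsProbabilityMeasure μ] [IsProbabilityMeasure μ']

lemma T2_iter_marg (hfix : (Cm b lam (D.prod D) μ).map Xc = μ)
    (hfix' : (Cm b lam (D.prod D) μ').map Xc = μ') (n : ℕ) :
    IsProbabilityMeasure ((T2 b lam (D.prod D))^[n] (μ.prod μ')) ∧
      ((T2 b lam (D.prod D))^[n] (μ.prod μ')).map Prod.fst = μ ∧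
      ((T2 b lam (D.prod D))^[n] (μ.prod μ')).map Prod.snd = μ' := by
  induction n with
  | zero =>
    refine ⟨by simp only [Function.iterate_zero, id]; infer_instance, ?_, ?_⟩
    · simp only [Function.iterate_zero, id]
      exact measurePreserving_fst.map_eq
    · simp only [Function.iterate_zero, id]
      exact measurePreserving_snd.map_eq
  | succ n ih =>
    obtain ⟨h0, h1, h2⟩ := ih
    rw [Function.iterate_succ_apply']
    refine ⟨T2_prob lam _ _, ?_, ?_⟩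
    · rw [T2_fst, h1, hfix]
    · rw [T2_snd, h2, hfix']

include hb in
lemma T2_iter_bound (hfix : (Cm b lam (D.prod D) μ).map Xc = μ)
    (hfix' : (Cm b lam (D.prod D) μ').map Xc = μ') (n : ℕ) :
    ∀ (a a' : ℝ → ℝ≥0∞), Measurable a → Measurable a' →
    ∫⁻ q, ENNReal.ofReal |cl q.1 - cl q.2| * (a q.1 ^ (1 / 2 : ℝ) * a' q.2 ^ (1 / 2 : ℝ))
        ∂((T2 b lam (D.prod D))^[n] (μ.prod μ'))
      ≤ ∫⁻ q, ENNReal.ofReal |cl q.1 - cl q.2|
        * (((LO b lam ((D.prod D).prod (Cm b lam (D.prod D) μ)))^[n] a q.1) ^ (1 / 2 : ℝ)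
          * ((LO b lam ((D.prod D).prod (Cm b lam (D.prod D) μ')))^[n] a' q.2) ^ (1 / 2 : ℝ))
            ∂(μ.prod μ') := by
  have hC := Cm_prob (b := b) lam D μ
  have hC' := Cm_prob (b := b) lam D μ'
  induction n with
  | zero => intro a a' _ _; exact le_rfl
  | succ n ih =>
    intro a a' ha ha'
    obtain ⟨h0, h1, h2⟩ := T2_iter_marg (b := b) lam D μ μ' hfix hfix' n
    rw [Function.iterate_succ_apply']
    refine (T2_step hb lam (D.prod D) _ μ μ' h1 h2 a a' ha ha').trans ?_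
    exact ih _ _ (LO_measurable lam _ ha) (LO_measurable lam _ ha')

include hb in
/-- The fixed point of the `X`-map is unique. -/
theorem mu_unique (hA : A2 D ≠ ∞) (hfix : (Cm b lam (D.prod D) μ).map Xc = μ)
    (hfix' : (Cm b lam (D.prod D) μ').map Xc = μ') : μ = μ' := by
  obtain ⟨S, ρ, hS, hρ, hdec⟩ := decay hb lam D μ hfix hA
  obtain ⟨S', ρ', hS', hρ', hdec'⟩ := decay hb lam D μ' hfix' hA
  set κ : ℕ → Measure (ℝ × ℝ) := fun n => (T2 b lam (D.prod D))^[n] (μ.prod μ') with hκ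
  have hmarg := T2_iter_marg (b := b) lam D μ μ' hfix hfix'
  have hprob : ∀ n, IsProbabilityMeasure (κ n) := fun n => (hmarg n).1
  have hbound : ∀ n, ∫⁻ q, ‖q.1 - q.2‖ₑ ∂(κ n) ≤ (ρ ^ n * S) ^ (1 / 2 : ℝ) * S' ^ (1 / 2 : ℝ) := by
    intro n
    have h1 := T2_iter_bound hb lam D μ μ' hfix hfix' n (fun _ => 1) (fun _ => 1)
      measurable_const measurable_const
    simp only [ENNReal.one_rpow, mul_one] at h1
    have hcl : ∀ᵐ q ∂(κ n), ‖q.1 - q.2‖ₑ = ENNReal.ofReal |cl q.1 - cl q.2| := by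
      have m1 : ∀ᵐ x ∂((κ n).map Prod.fst), 0 < x ∧ x ≤ 1 := by
        rw [(hmarg n).2.1]; exact ae_pos lam D μ hfix
      have m2 : ∀ᵐ x ∂((κ n).map Prod.snd), 0 < x ∧ x ≤ 1 := by
        rw [(hmarg n).2.2]; exact ae_pos lam D μ' hfix'
      have n1 := ae_of_ae_map measurable_fst.aemeasurable m1
      have n2 := ae_of_ae_map measurable_snd.aemeasurable m2
      filter_upwards [n1, n2] with q hq1 hq2
      rw [cl_of_mem hq1.1.le hq1.2, cl_of_mem hq2.1.le hq2.2, Real.enorm_eq_ofReal_abs]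
    rw [lintegral_congr_ae hcl]
    refine h1.trans ?_
    calc _ ≤ ∫⁻ q, (ρ ^ n * S) ^ (1 / 2 : ℝ) * S' ^ (1 / 2 : ℝ) ∂(μ.prod μ') := by
          apply lintegral_mono
          intro q
          simp only
          have e1 : ENNReal.ofReal |cl q.1 - cl q.2| ≤ 1 := by
            rw [← ENNReal.ofReal_one]
            apply ENNReal.ofReal_le_ofReal
            rw [abs_le]
            have a1 := cl_nonneg q.1
            have a2 := cl_nonneg q.2
            have a3 := cl_le_one q.1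
            have a4 := cl_le_one q.2
            constructor <;> linarith
          have e2 := hdec n q.1
          have e3 : rr b lam D μ' n q.2 ≤ S' := by
            refine (hdec' n q.2).trans ?_
            calc ρ' ^ n * S' ≤ 1 * S' := by
                  gcongr
                  exact pow_le_one₀ zero_le hρ'.le
              _ = S' := one_mul _
          calc _ ≤ 1 * ((ρ ^ n * S) ^ (1 / 2 : ℝ) * S' ^ (1 / 2 : ℝ)) := by
                apply mul_le_mul' e1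
                apply mul_le_mul'
                · exact ENNReal.rpow_le_rpow e2 (by norm_num)
                · exact ENNReal.rpow_le_rpow e3 (by norm_num)
            _ = _ := one_mul _
      _ = _ := by simp
  have hlim : Tendsto (fun n => (ρ ^ n * S) ^ (1 / 2 : ℝ) * S' ^ (1 / 2 : ℝ)) atTop (𝓝 0) := by
    have t1 : Tendsto (fun n : ℕ => ρ ^ n) atTop (𝓝 0) :=
      ENNReal.tendsto_pow_atTop_nhds_zero_of_lt_one hρ
    have t2 : Tendsto (fun n : ℕ => ρ ^ n * S) atTop (𝓝 (0 * S)) :=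
      ENNReal.Tendsto.mul_const t1 (Or.inr hS)
    rw [zero_mul] at t2
    have t3 : Tendsto (fun n : ℕ => (ρ ^ n * S) ^ (1 / 2 : ℝ)) atTop (𝓝 (0 ^ (1 / 2 : ℝ))) :=
      (ENNReal.continuous_rpow_const.tendsto _).comp t2
    rw [ENNReal.zero_rpow_of_pos (by norm_num)] at t3
    have t4 := ENNReal.Tendsto.mul_const (b := S' ^ (1 / 2 : ℝ)) t3
      (Or.inr (ENNReal.rpow_ne_top_of_nonneg (by norm_num) hS'))
    rwa [zero_mul] at t4
  have hconv : Tendsto (fun n => ∫⁻ q, ‖q.1 - q.2‖ₑ ∂(κ n)) atTop (𝓝 0) :=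
    tendsto_of_tendsto_of_tendsto_of_le_of_le tendsto_const_nhds hlim (fun _ => zero_le) hbound
  apply Measure.ext_of_charFunDual
  ext L
  have := tendsto_charFunDual κ Prod.fst Prod.snd measurable_fst measurable_snd μ (fun _ => μ')
    (fun n => (hmarg n).2.1) (fun n => (hmarg n).2.2) hconv L
  exact tendsto_nhds_unique this tendsto_const_nhds

end muUnique

end Pool.Agent.R965.SG
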