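import Pool.Agent.R965.SG.Model

open MeasureTheory ProbabilityTheory Finset
open scoped ENNReal NNReal BigOperators

namespace Pool.Agent.R965.SG

/-- Compound Poisson law of the denominator increments, for the state law `μ`. -/
noncomputable def Cm (b : ℝ) (lam : ℝ≥0) (DD : Measure (ℝ × ℝ)) (μ : Measure ℝ) : Measure ℝ≥0 :=
  CP lam (DD.prod μ) (sw b)

section marg

variable {S : Type*} [MeasurableSpace S] {A : Type*} [AddCommMonoid A] [MeasurableSpace A]
  [MeasurableAdd₂ A]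

lemma CP_map {I J : Type*} [MeasurableSpace I] [MeasurableSpace J] (lam : ℝ≥0) (ν : Measure I)
    [IsProbabilityMeasure ν] (g : I → J) (hg : Measurable g) (s : J → A) (hs : Measurable s) :
    CP lam (ν.map g) s = CP lam ν (fun z => s (g z)) := by
  have hp : IsProbabilityMeasure (ν.map g) := Measure.isProbabilityMeasure_map hg.aemeasurable
  unfold CP
  rw [← Q_map lam ν g hg, Measure.map_map (measurable_qsum s hs) (by fun_prop)]
  rfl

lemma prod_map_right (DD : Measure (ℝ × ℝ)) [IsProbabilityMeasure DD] (κ : Measure S)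
    [IsProbabilityMeasure κ] {S' : Type*} [MeasurableSpace S'] (f : S → S') (hf : Measurable f) :
    (DD.prod κ).map (fun z => (z.1, f z.2)) = DD.prod (κ.map f) := by
  have : (fun z : (ℝ × ℝ) × S => (z.1, f z.2)) = Prod.map id f := rfl
  rw [this, ← Measure.map_prod_map _ _ measurable_id hf, Measure.map_id]

lemma CP_marg (lam : ℝ≥0) (DD : Measure (ℝ × ℝ)) [IsProbabilityMeasure DD] (κ : Measure S)
    [IsProbabilityMeasure κ] {S' : Type*} [MeasurableSpace S'] (f : S → S') (hf : Measurable f)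
    (s : (ℝ × ℝ) × S' → A) (hs : Measurable s) :
    CP lam (DD.prod (κ.map f)) s = CP lam (DD.prod κ) (fun z => s (z.1, f z.2)) := by
  rw [← prod_map_right DD κ f hf, CP_map lam (DD.prod κ) _ (by fun_prop) s hs]

/-- Mecke formula in operator form. -/
lemma op_mecke (b : ℝ) (lam : ℝ≥0) (DD : Measure (ℝ × ℝ)) [IsProbabilityMeasure DD]
    (κ : Measure S) [IsProbabilityMeasure κ] (πx : S → ℝ) (hπ : Measurable πx)
    (w : S → ℝ≥0∞) (hw : Measurable w) (g : ℝ → ℝ≥0∞) (hg : Measurable g) :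
    ∫⁻ st, w st * LO b lam (DD.prod (Cm b lam DD (κ.map πx))) g (πx st) ∂κ
      = lam * ∫⁻ z, ∫⁻ c, w z.2 * (ENNReal.ofReal ((b * z.1.1 * z.1.2) ^ 2
          * (Xc (sw b (z.1, πx z.2) + c) / W b z.1 (πx z.2)) ^ 2)
          * g (Xc (sw b (z.1, πx z.2) + c)))
        ∂(CP lam (DD.prod κ) (fun z => sw b (z.1, πx z.2))) ∂(DD.prod κ) := by
  have hs : Measurable (fun z : (ℝ × ℝ) × S => sw b (z.1, πx z.2)) := by fun_prop
  have hC : Cm b lam DD (κ.map πx) = CP lam (DD.prod κ) (fun z => sw b (z.1, πx z.2)) :=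
    CP_marg lam DD κ πx hπ (sw b) (measurable_sw b)
  have hprob := CP_prob lam (DD.prod κ) _ hs
  rw [hC]
  set C := CP lam (DD.prod κ) (fun z => sw b (z.1, πx z.2)) with hCdef
  have hF : Measurable (fun q : S × ((ℝ × ℝ) × ℝ≥0) => w q.1
      * (ENNReal.ofReal (Kf b (πx q.1) q.2) * g (Xf b (πx q.1) q.2))) := by
    have h1 : Measurable (fun q : S × ((ℝ × ℝ) × ℝ≥0) => Kf b (πx q.1) q.2) :=
      (measurable_Kf2 b).comp (f := fun q : S × ((ℝ × ℝ) × ℝ≥0) => (πx q.1, q.2)) (by fun_prop)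
    have h2 : Measurable (fun q : S × ((ℝ × ℝ) × ℝ≥0) => Xf b (πx q.1) q.2) :=
      (measurable_Xf2 b).comp (f := fun q : S × ((ℝ × ℝ) × ℝ≥0) => (πx q.1, q.2)) (by fun_prop)
    exact (hw.comp measurable_fst).mul (h1.ennreal_ofReal.mul (hg.comp h2))
  have l1 : ∀ st, w st * LO b lam (DD.prod C) g (πx st)
      = lam * ∫⁻ m, ∫⁻ c, w st * (ENNReal.ofReal (Kf b (πx st) (m, c)) * g (Xf b (πx st) (m, c)))
        ∂C ∂DD := by
    intro st
    have hmeas : Measurable (fun q : (ℝ × ℝ) × ℝ≥0 => w st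
      * (ENNReal.ofReal (Kf b (πx st) q) * g (Xf b (πx st) q))) :=
      (LO_integrand hg (πx st)).const_mul _
    unfold LO
    rw [mul_left_comm, ← lintegral_const_mul _ (LO_integrand hg (πx st)),
      lintegral_prod _ hmeas.aemeasurable]
  rw [lintegral_congr l1]
  have hG : Measurable (fun q : (S × (ℝ × ℝ)) × ℝ≥0 => w q.1.1
      * (ENNReal.ofReal (Kf b (πx q.1.1) (q.1.2, q.2)) * g (Xf b (πx q.1.1) (q.1.2, q.2)))) :=
    hF.comp (f := fun q : (S × (ℝ × ℝ)) × ℝ≥0 => (q.1.1, (q.1.2, q.2))) (by fun_prop)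
  have hG2 := hG.lintegral_prod_right' (ν := C)
  have hG3 : Measurable (fun st => ∫⁻ m, ∫⁻ c, w st * (ENNReal.ofReal (Kf b (πx st) (m, c))
      * g (Xf b (πx st) (m, c))) ∂C ∂DD) := hG2.lintegral_prod_right' (ν := DD)
  rw [lintegral_const_mul _ hG3]
  congr 1
  rw [lintegral_prod_symm]
  · rfl
  · have : Measurable (fun z : (ℝ × ℝ) × S => ∫⁻ c, w z.2
      * (ENNReal.ofReal (Kf b (πx z.2) (z.1, c)) * g (Xf b (πx z.2) (z.1, c))) ∂C) :=
      hG2.comp measurable_swap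
    exact this.aemeasurable

end marg

section stepA

variable {b : ℝ} (hb : 0 < b) (lam : ℝ≥0) (DD : Measure (ℝ × ℝ)) [IsProbabilityMeasure DD]
  (μ : Measure ℝ) [IsProbabilityMeasure μ]

include hb in
lemma pointwise (p : ℕ × (ℕ → (ℝ × ℝ) × ℝ)) (t : ℝ≥0) (ht : t = ∑ j ∈ range p.1, sw b (p.2 j)) :
    Xc t ^ 2 + ∑ k ∈ range p.1, cl (p.2 k).2 * ((b * (p.2 k).1.1 * (p.2 k).1.2) ^ 2
      * (Xc t / W b (p.2 k).1 (p.2 k).2) ^ 2) ≤ Xc t := by
  have hX : Xc t ^ 2 * (1 + ∑ j ∈ range p.1, ((sw b (p.2 j) : ℝ≥0) : ℝ)) = Xc t := by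
    have : (t : ℝ) = ∑ j ∈ range p.1, ((sw b (p.2 j) : ℝ≥0) : ℝ) := by
      rw [ht]; push_cast; rfl
    rw [← this]
    unfold Xc
    have : 0 < 1 + (t : ℝ) := by positivity
    field_simp
  conv_rhs => rw [← hX]
  rw [mul_add, mul_one, Finset.mul_sum]
  refine add_le_add le_rfl (Finset.sum_le_sum fun k _ => ?_)
  have h1 : (((sw b (p.2 k) : ℝ≥0)) : ℝ) = b * (p.2 k).1.2 ^ 2 / W b (p.2 k).1 (p.2 k).2 :=
    sw_coe hb (p.2 k).1 (p.2 k).2
  rw [h1]
  have hW := W_pos hb (p.2 k).1 (p.2 k).2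
  have h2 : cl (p.2 k).2 * (b * (p.2 k).1.1 ^ 2) ≤ W b (p.2 k).1 (p.2 k).2 := by
    unfold W; linarith
  calc cl (p.2 k).2 * ((b * (p.2 k).1.1 * (p.2 k).1.2) ^ 2 * (Xc t / W b (p.2 k).1 (p.2 k).2) ^ 2)
      = (cl (p.2 k).2 * (b * (p.2 k).1.1 ^ 2)) * (Xc t ^ 2 * (b * (p.2 k).1.2 ^ 2)
        / W b (p.2 k).1 (p.2 k).2 ^ 2) := by
        field_simp
    _ ≤ W b (p.2 k).1 (p.2 k).2 * (Xc t ^ 2 * (b * (p.2 k).1.2 ^ 2)
        / W b (p.2 k).1 (p.2 k).2 ^ 2) := by
        gcongr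
    _ = Xc t ^ 2 * (b * (p.2 k).1.2 ^ 2 / W b (p.2 k).1 (p.2 k).2) := by
        field_simp

omit [IsProbabilityMeasure DD] [IsProbabilityMeasure μ] in
lemma lintegral_fix (hfix : (Cm b lam DD μ).map Xc = μ) (f : ℝ → ℝ≥0∞) (hf : Measurable f) :
    ∫⁻ x, f x ∂μ = ∫⁻ p, f (Xc (∑ j ∈ range p.1, sw b (p.2 j))) ∂(Q lam (DD.prod μ)) := by
  conv_lhs => rw [← hfix]
  rw [lintegral_map hf measurable_Xc]
  unfold Cm CP
  rw [lintegral_map (by fun_prop) (measurable_qsum _ (measurable_sw b))]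

include hb in
lemma stepA_one (hfix : (Cm b lam DD μ).map Xc = μ) (g : ℝ → ℝ≥0∞) (hg : Measurable g) :
    ∫⁻ x, ENNReal.ofReal (cl x ^ 2) * g x ∂μ
      + ∫⁻ x, ENNReal.ofReal (cl x) * LO b lam (DD.prod (Cm b lam DD μ)) g x ∂μ
      ≤ ∫⁻ x, ENNReal.ofReal (cl x) * g x ∂μ := by
  have h1 := op_mecke b lam DD μ id measurable_id (fun x => ENNReal.ofReal (cl x)) (by fun_prop)
    g hg
  rw [Measure.map_id] at h1
  simp only [id] at h1
  have hsw : (fun z : (ℝ × ℝ) × ℝ => sw b (z.1, z.2)) = sw b := rfl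
  rw [hsw] at h1
  have hG : Measurable (fun q : ((ℝ × ℝ) × ℝ) × ℝ≥0 => ENNReal.ofReal (cl q.1.2)
      * (ENNReal.ofReal ((b * q.1.1.1 * q.1.1.2) ^ 2 * (Xc q.2 / W b q.1.1 q.1.2) ^ 2)
        * g (Xc q.2))) := by
    have hW : Measurable (fun q : ((ℝ × ℝ) × ℝ) × ℝ≥0 => W b q.1.1 q.1.2) :=
      (measurable_W b).comp measurable_fst
    have hgX : Measurable (fun q : ((ℝ × ℝ) × ℝ) × ℝ≥0 => g (Xc q.2)) := by fun_prop
    fun_prop
  have h2 := mecke lam (DD.prod μ) (sw b) (measurable_sw b) _ hG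
  simp only at h2
  rw [h1]
  rw [← h2]
  rw [lintegral_fix lam DD μ hfix _ (by fun_prop), lintegral_fix lam DD μ hfix _ (by fun_prop)]
  have hq := measurable_qsum (sw b) (measurable_sw b)
  rw [← lintegral_add_left (by fun_prop)]
  apply lintegral_mono
  intro p
  simp only
  set t := ∑ j ∈ range p.1, sw b (p.2 j) with ht
  have hp := pointwise hb p t ht
  rw [cl_Xc]
  have h3 : ∑ k ∈ range p.1, ENNReal.ofReal (cl (p.2 k).2)
      * (ENNReal.ofReal ((b * (p.2 k).1.1 * (p.2 k).1.2) ^ 2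
          * (Xc t / W b (p.2 k).1 (p.2 k).2) ^ 2) * g (Xc t))
      = ENNReal.ofReal (∑ k ∈ range p.1, cl (p.2 k).2 * ((b * (p.2 k).1.1 * (p.2 k).1.2) ^ 2
      * (Xc t / W b (p.2 k).1 (p.2 k).2) ^ 2)) * g (Xc t) := by
    rw [ENNReal.ofReal_sum_of_nonneg, Finset.sum_mul]
    · refine Finset.sum_congr rfl fun k _ => ?_
      rw [ENNReal.ofReal_mul (cl_nonneg _)]
      ring
    · intro k _
      exact mul_nonneg (cl_nonneg _) (by positivity)
  rw [h3, ← add_mul, ← ENNReal.ofReal_add (by positivity)]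
  · gcongr
  · exact Finset.sum_nonneg fun k _ => mul_nonneg (cl_nonneg _) (by positivity)

lemma iter_measurable (M : Measure ((ℝ × ℝ) × ℝ≥0)) [SFinite M] (n : ℕ) :
    ∀ (g : ℝ → ℝ≥0∞), Measurable g → Measurable ((LO b lam M)^[n] g) := by
  induction n with
  | zero => intro g hg; exact hg
  | succ n ih =>
    intro g hg
    rw [Function.iterate_succ_apply]
    exact ih _ (LO_measurable lam M hg)

include hb in
lemma stepA (hfix : (Cm b lam DD μ).map Xc = μ) (N : ℕ) :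
    ∀ (g : ℝ → ℝ≥0∞), Measurable g →
    ∑ n ∈ range (N + 1), ∫⁻ x, ENNReal.ofReal (cl x ^ 2)
        * ((LO b lam (DD.prod (Cm b lam DD μ)))^[n] g) x ∂μ
      ≤ ∫⁻ x, ENNReal.ofReal (cl x) * g x ∂μ := by
  have hprob : IsProbabilityMeasure (Cm b lam DD μ) := CP_prob lam _ _ (measurable_sw b)
  induction N with
  | zero =>
    intro g hg
    simp only [zero_add, Finset.sum_range_one, Function.iterate_zero, id]
    apply lintegral_mono
    intro x
    apply mul_le_mul_left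
    apply ENNReal.ofReal_le_ofReal
    have := cl_nonneg x
    have := cl_le_one x
    nlinarith
  | succ N ih =>
    intro g hg
    rw [Finset.sum_range_succ']
    simp only [Function.iterate_succ_apply, Function.iterate_zero, id]
    have h1 := ih _ (LO_measurable (b := b) lam (DD.prod (Cm b lam DD μ)) hg)
    calc _ ≤ ∫⁻ x, ENNReal.ofReal (cl x) * LO b lam (DD.prod (Cm b lam DD μ)) g x ∂μ
          + ∫⁻ x, ENNReal.ofReal (cl x ^ 2) * g x ∂μ := by gcongr
      _ ≤ _ := by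
        rw [add_comm]
        exact stepA_one hb lam DD μ hfix g hg

end stepA

section lower

variable {b : ℝ} (hb : 0 < b) (lam : ℝ≥0) (D : Measure ℝ) [IsProbabilityMeasure D]
  (C : Measure ℝ≥0) [IsProbabilityMeasure C]

lemma prod_fact (u : ℝ → ℝ≥0∞) (hu : Measurable u) (F : ℝ × ℝ≥0 → ℝ≥0∞) (hF : Measurable F) :
    ∫⁻ p, u p.1.1 * F (p.1.2, p.2) ∂((D.prod D).prod C)
      = (∫⁻ x, u x ∂D) * ∫⁻ z, ∫⁻ c, F (z, c) ∂C ∂D := by
  have h1 : Measurable (fun p : (ℝ × ℝ) × ℝ≥0 => u p.1.1 * F (p.1.2, p.2)) := by fun_prop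
  rw [lintegral_prod _ h1.aemeasurable]
  have h2 : Measurable (fun m : ℝ × ℝ => ∫⁻ c, u m.1 * F (m.2, c) ∂C) := h1.lintegral_prod_right'
  rw [lintegral_prod _ h2.aemeasurable]
  have h3 : ∀ x, ∫⁻ z, ∫⁻ c, u x * F (z, c) ∂C ∂D = u x * ∫⁻ z, ∫⁻ c, F (z, c) ∂C ∂D := by
    intro x
    rw [← lintegral_const_mul _ hF.lintegral_prod_right']
    refine lintegral_congr fun z => ?_
    rw [← lintegral_const_mul _ (by fun_prop)]
  rw [lintegral_congr h3, lintegral_mul_const _ hu]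

/-- `E ξ²` -/
noncomputable def A2 (D : Measure ℝ) : ℝ≥0∞ := ∫⁻ x, ENNReal.ofReal (x ^ 2) ∂D
/-- `E ξ²/(1+bξ²)²` -/
noncomputable def B2 (b : ℝ) (D : Measure ℝ) : ℝ≥0∞ :=
  ∫⁻ x, ENNReal.ofReal (x ^ 2 / (1 + b * x ^ 2) ^ 2) ∂D

/-- the remaining factor at `x = 0` -/
noncomputable def F0 (b : ℝ) (g : ℝ → ℝ≥0∞) (q : ℝ × ℝ≥0) : ℝ≥0∞ :=
  ENNReal.ofReal (b ^ 2 * q.1 ^ 2 * Xc (Real.toNNReal (b * q.1 ^ 2) + q.2) ^ 2)
    * g (Xc (Real.toNNReal (b * q.1 ^ 2) + q.2))

lemma F0_measurable (g : ℝ → ℝ≥0∞) (hg : Measurable g) : Measurable (F0 b g) := by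
  unfold F0; fun_prop

lemma Xf_zero (p : (ℝ × ℝ) × ℝ≥0) : Xf b 0 p = Xc (Real.toNNReal (b * p.1.2 ^ 2) + p.2) := by
  unfold Xf sw W
  simp [cl_zero]

lemma LO_zero (g : ℝ → ℝ≥0∞) (hg : Measurable g) :
    LO b lam ((D.prod D).prod C) g 0 = lam * (A2 D * ∫⁻ z, ∫⁻ c, F0 b g (z, c) ∂C ∂D) := by
  unfold LO A2
  rw [← prod_fact D C _ (by fun_prop) (F0 b g) (F0_measurable g hg)]
  congr 1
  refine lintegral_congr fun p => ?_
  unfold F0 Kf
  rw [Xf_zero, ← mul_assoc, ← ENNReal.ofReal_mul (by positivity)]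
  congr 2
  unfold W
  simp only [cl_zero, mul_zero, add_zero, div_one]
  ring

include hb in
lemma LO_lower (g : ℝ → ℝ≥0∞) (hg : Measurable g) (hM : Mon g) (x : ℝ) :
    lam * (B2 b D * ∫⁻ z, ∫⁻ c, F0 b g (z, c) ∂C ∂D) ≤ LO b lam ((D.prod D).prod C) g x := by
  unfold LO B2
  rw [← prod_fact D C _ (by fun_prop) (F0 b g) (F0_measurable g hg)]
  apply mul_le_mul_right
  apply lintegral_mono
  intro p
  have h1 : cl (Xf b 0 p) ≤ cl (Xf b x p) := by
    rw [cl_Xf, cl_Xf]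
    apply Xf_mono hb
    rw [cl_zero]
    exact cl_nonneg x
  have h2 := hM _ _ h1
  rw [cl_Xf, cl_Xf] at h2
  have hW := W_pos hb p.1 x
  have hW1 := W_le hb p.1 x
  simp only
  calc ENNReal.ofReal (p.1.1 ^ 2 / (1 + b * p.1.1 ^ 2) ^ 2) * F0 b g (p.1.2, p.2)
      = ENNReal.ofReal ((b * p.1.1 * p.1.2) ^ 2 / (1 + b * p.1.1 ^ 2) ^ 2)
        * (ENNReal.ofReal (Xf b 0 p ^ 2) * g (Xf b 0 p)) := by
        unfold F0
        rw [Xf_zero, ← mul_assoc, ← mul_assoc, ← ENNReal.ofReal_mul (by positivity),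
          ← ENNReal.ofReal_mul (by positivity)]
        congr 2
        ring
    _ ≤ ENNReal.ofReal ((b * p.1.1 * p.1.2) ^ 2 / (W b p.1 x) ^ 2)
        * (ENNReal.ofReal (Xf b x p ^ 2) * g (Xf b x p)) := by
        apply mul_le_mul' _ h2
        apply ENNReal.ofReal_le_ofReal
        gcongr
    _ = ENNReal.ofReal (Kf b x p) * g (Xf b x p) := by
        rw [← mul_assoc, ← ENNReal.ofReal_mul (by positivity)]
        congr 2
        unfold Kf
        ring

include hb in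
lemma LO_compare (g : ℝ → ℝ≥0∞) (hg : Measurable g) (hM : Mon g) (x : ℝ) :
    B2 b D * LO b lam ((D.prod D).prod C) g 0 ≤ A2 D * LO b lam ((D.prod D).prod C) g x := by
  rw [LO_zero lam D C g hg]
  calc _ = A2 D * (lam * (B2 b D * ∫⁻ z, ∫⁻ c, F0 b g (z, c) ∂C ∂D)) := by ring
    _ ≤ _ := mul_le_mul_right (LO_lower hb lam D C g hg hM x) _

end lower

section green

variable {b : ℝ} (hb : 0 < b) (lam : ℝ≥0) (D : Measure ℝ) [IsProbabilityMeasure D]
  (μ : Measure ℝ) [IsProbabilityMeasure μ]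

/-- the iterates `rₙ = Lⁿ 1` -/
noncomputable def rr (b : ℝ) (lam : ℝ≥0) (D : Measure ℝ) (μ : Measure ℝ) (n : ℕ) : ℝ → ℝ≥0∞ :=
  (LO b lam ((D.prod D).prod (Cm b lam (D.prod D) μ)))^[n] (fun _ => 1)

omit [IsProbabilityMeasure D] [IsProbabilityMeasure μ] in
lemma rr_succ (n : ℕ) : rr b lam D μ (n + 1)
    = LO b lam ((D.prod D).prod (Cm b lam (D.prod D) μ)) (rr b lam D μ n) := by
  unfold rr
  rw [Function.iterate_succ_apply']

lemma Cm_prob : IsProbabilityMeasure (Cm b lam (D.prod D) μ) :=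
  CP_prob lam _ _ (measurable_sw b)

lemma rr_measurable (n : ℕ) : Measurable (rr b lam D μ n) := by
  have := Cm_prob (b := b) lam D μ
  exact iter_measurable lam _ n _ measurable_const

include hb in
lemma rr_anti (n : ℕ) : Anti (rr b lam D μ n) := by
  induction n with
  | zero => intro x x' _; exact le_rfl
  | succ n ih =>
    rw [rr_succ]
    exact LO_anti lam _ hb ih

include hb in
lemma rr_mon (n : ℕ) : Mon (rr b lam D μ n) := by
  induction n with
  | zero =>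
    intro x x' h
    apply mul_le_mul_left
    apply ENNReal.ofReal_le_ofReal
    exact pow_le_pow_left₀ (cl_nonneg _) h 2
  | succ n ih =>
    rw [rr_succ]
    exact LO_mon lam _ hb (rr_measurable lam D μ n) ih

include hb in
lemma rr_le_zero (n : ℕ) (x : ℝ) : rr b lam D μ n x ≤ rr b lam D μ n 0 :=
  rr_anti hb lam D μ n 0 x (by rw [cl_zero]; exact cl_nonneg x)

include hb in
lemma rr_compare (n : ℕ) (x : ℝ) :
    B2 b D * rr b lam D μ (n + 1) 0 ≤ A2 D * rr b lam D μ (n + 1) x := by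
  have := Cm_prob (b := b) lam D μ
  rw [rr_succ]
  exact LO_compare hb lam D _ _ (rr_measurable lam D μ n) (rr_mon hb lam D μ n) x

lemma rr_zero_of_A2 (h : A2 D = 0) (n : ℕ) : rr b lam D μ (n + 1) 0 = 0 := by
  have := Cm_prob (b := b) lam D μ
  rw [rr_succ, LO_zero lam D _ _ (rr_measurable lam D μ n), h]
  simp

include hb in
omit [IsProbabilityMeasure D] in
lemma B2_ne_zero (h : A2 D ≠ 0) : B2 b D ≠ 0 := by
  intro h0
  apply h
  unfold A2
  unfold B2 at h0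
  rw [lintegral_eq_zero_iff (by fun_prop)] at h0 ⊢
  filter_upwards [h0] with x hx
  simp only [Pi.zero_apply, ENNReal.ofReal_eq_zero] at hx ⊢
  have h1 : 0 < (1 + b * x ^ 2) ^ 2 := by positivity
  rw [div_le_iff₀ h1] at hx
  linarith

/-- `∫ x² dμ` -/
noncomputable def M2 (μ : Measure ℝ) : ℝ≥0∞ := ∫⁻ x, ENNReal.ofReal (cl x ^ 2) ∂μ

omit [IsProbabilityMeasure D] [IsProbabilityMeasure μ] in
lemma ae_pos (hfix : (Cm b lam (D.prod D) μ).map Xc = μ) : ∀ᵐ x ∂μ, 0 < x ∧ x ≤ 1 := by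
  rw [← hfix, ae_map_iff measurable_Xc.aemeasurable]
  · exact Filter.Eventually.of_forall fun c => ⟨Xc_pos c, Xc_le_one c⟩
  · exact (measurableSet_lt measurable_const measurable_id).inter
      (measurableSet_le measurable_id measurable_const)

lemma M2_ne_zero (hfix : (Cm b lam (D.prod D) μ).map Xc = μ) : M2 μ ≠ 0 := by
  intro h0
  unfold M2 at h0
  rw [lintegral_eq_zero_iff (by fun_prop)] at h0
  have h1 := ae_pos lam D μ hfix
  have h2 : ∀ᵐ x ∂μ, False := by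
    filter_upwards [h0, h1] with x hx hx1
    simp only [Pi.zero_apply, ENNReal.ofReal_eq_zero] at hx
    rw [cl_of_mem hx1.1.le hx1.2] at hx
    have := hx1.1
    nlinarith
  rw [Filter.eventually_false_iff_eq_bot, ae_eq_bot] at h2
  exact (IsProbabilityMeasure.ne_zero μ) h2

include hb in
lemma green_finite (hfix : (Cm b lam (D.prod D) μ).map Xc = μ) (hA : A2 D ≠ ∞) :
    ∑' n, rr b lam D μ n 0 ≠ ∞ := by
  have hC := Cm_prob (b := b) lam D μ
  have hr := rr_measurable (b := b) lam D μ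
  rw [tsum_eq_zero_add' ENNReal.summable]
  apply ENNReal.add_ne_top.2
  refine ⟨by simp [rr], ?_⟩
  by_cases h0 : A2 D = 0
  · have : ∀ n, rr b lam D μ (n + 1) 0 = 0 := rr_zero_of_A2 lam D μ h0
    simp [this]
  have hB := B2_ne_zero hb D h0
  have hM := M2_ne_zero (b := b) lam D μ hfix
  have key : B2 b D * M2 μ * ∑' n, rr b lam D μ (n + 1) 0 ≤ A2 D := by
    rw [← ENNReal.tsum_mul_left]
    apply ENNReal.tsum_le_of_sum_range_le
    intro N
    have h1 : ∀ n, B2 b D * M2 μ * rr b lam D μ (n + 1) 0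
        ≤ A2 D * ∫⁻ x, ENNReal.ofReal (cl x ^ 2) * rr b lam D μ (n + 1) x ∂μ := by
      intro n
      unfold M2
      have hm := hr (n + 1)
      calc B2 b D * (∫⁻ x, ENNReal.ofReal (cl x ^ 2) ∂μ) * rr b lam D μ (n + 1) 0
          = (∫⁻ x, ENNReal.ofReal (cl x ^ 2) ∂μ) * (B2 b D * rr b lam D μ (n + 1) 0) := by ring
        _ = ∫⁻ x, ENNReal.ofReal (cl x ^ 2) * (B2 b D * rr b lam D μ (n + 1) 0) ∂μ := by
            rw [lintegral_mul_const _ (by fun_prop)]
        _ ≤ ∫⁻ x, A2 D * (ENNReal.ofReal (cl x ^ 2) * rr b lam D μ (n + 1) x) ∂μ := by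
            apply lintegral_mono
            intro x
            simp only
            rw [mul_left_comm (A2 D)]
            exact mul_le_mul_right (rr_compare hb lam D μ n x) _
        _ = _ := lintegral_const_mul _ (by fun_prop)
    calc ∑ n ∈ range N, B2 b D * M2 μ * rr b lam D μ (n + 1) 0
        ≤ ∑ n ∈ range N, A2 D * ∫⁻ x, ENNReal.ofReal (cl x ^ 2) * rr b lam D μ (n + 1) x ∂μ :=
          Finset.sum_le_sum fun n _ => h1 n
      _ = A2 D * ∑ n ∈ range N, ∫⁻ x, ENNReal.ofReal (cl x ^ 2) * rr b lam D μ (n + 1) x ∂μ := by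
          rw [Finset.mul_sum]
      _ ≤ A2 D * ∑ n ∈ range (N + 1), ∫⁻ x, ENNReal.ofReal (cl x ^ 2) * rr b lam D μ n x ∂μ := by
          rw [Finset.sum_range_succ' _ N]
          apply mul_le_mul_right
          exact le_self_add
      _ ≤ A2 D * ∫⁻ x, ENNReal.ofReal (cl x) * 1 ∂μ := by
          apply mul_le_mul_right
          exact stepA hb lam (D.prod D) μ hfix N (fun _ => 1) measurable_const
      _ ≤ A2 D * ∫⁻ x, 1 ∂μ := by
          apply mul_le_mul_right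
          apply lintegral_mono
          intro x
          simp only [mul_one]
          rw [← ENNReal.ofReal_one]
          exact ENNReal.ofReal_le_ofReal (cl_le_one x)
      _ = A2 D := by simp
  intro htop
  rw [htop, ENNReal.mul_top (mul_ne_zero hB hM)] at key
  exact hA (top_le_iff.1 key)

include hb in
/-- Geometric decay of the iterates. -/
lemma decay (hfix : (Cm b lam (D.prod D) μ).map Xc = μ) (hA : A2 D ≠ ∞) :
    ∃ S ρ : ℝ≥0∞, S ≠ ∞ ∧ ρ < 1 ∧ ∀ n x, rr b lam D μ n x ≤ ρ ^ n * S := by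
  have hC := Cm_prob (b := b) lam D μ
  have hr := rr_measurable (b := b) lam D μ
  set M := (D.prod D).prod (Cm b lam (D.prod D) μ) with hMdef
  set G : ℝ → ℝ≥0∞ := fun x => ∑' n, rr b lam D μ n x with hG
  have hGm : Measurable G := Measurable.tsum hr
  have hS := green_finite hb lam D μ hfix hA
  set S := ∑' n, rr b lam D μ n 0 with hSdef
  have hGS : ∀ x, G x ≤ S := fun x => ENNReal.tsum_le_tsum fun n => rr_le_zero hb lam D μ n x
  have hG1 : ∀ x, 1 ≤ G x := by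
    intro x
    exact ENNReal.le_tsum (f := fun n => rr b lam D μ n x) 0
  have hS1 : 1 ≤ S := hG1 0
  have hLG : ∀ x, LO b lam M G x + 1 = G x := by
    intro x
    have h1 : LO b lam M G x = ∑' n, rr b lam D μ (n + 1) x := by
      have := LO_tsum (b := b) lam M hr x
      rw [hG, this]
      refine tsum_congr fun n => ?_
      rw [rr_succ]
    have h2 : G x = rr b lam D μ 0 x + ∑' n, rr b lam D μ (n + 1) x :=
      tsum_eq_zero_add' ENNReal.summable
    rw [h1, h2, add_comm]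
    rfl
  have hcontr : ∀ x, LO b lam M G x ≤ (1 - S⁻¹) * G x := by
    intro x
    have hfin : G x ≠ ∞ := ne_top_of_le_ne_top hS (hGS x)
    have h1 : LO b lam M G x = G x - 1 := by
      rw [← hLG x, ENNReal.add_sub_cancel_right ENNReal.one_ne_top]
    rw [h1, ENNReal.sub_mul (fun _ _ => hfin), one_mul]
    apply tsub_le_tsub_left
    rw [mul_comm, ← div_eq_mul_inv]
    exact ENNReal.div_le_of_le_mul (by rw [one_mul]; exact hGS x)
  have hiter : ∀ n x, ((LO b lam M)^[n] G) x ≤ (1 - S⁻¹) ^ n * G x := by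
    intro n
    induction n with
    | zero => intro x; simp
    | succ n ih =>
      intro x
      rw [Function.iterate_succ_apply']
      calc LO b lam M ((LO b lam M)^[n] G) x ≤ LO b lam M (fun y => (1 - S⁻¹) ^ n * G y) x :=
            LO_mono lam M ih x
        _ = (1 - S⁻¹) ^ n * LO b lam M G x := LO_const_mul lam M _ hGm x
        _ ≤ (1 - S⁻¹) ^ n * ((1 - S⁻¹) * G x) := mul_le_mul_right (hcontr x) _
        _ = _ := by ring
  have hmono : ∀ n, ∀ g g' : ℝ → ℝ≥0∞, (∀ x, g x ≤ g' x) → ∀ x,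
      ((LO b lam M)^[n] g) x ≤ ((LO b lam M)^[n] g') x := by
    intro n
    induction n with
    | zero => intro g g' h x; exact h x
    | succ n ih =>
      intro g g' h x
      rw [Function.iterate_succ_apply, Function.iterate_succ_apply]
      exact ih _ _ (LO_mono lam M h) x
  refine ⟨S, 1 - S⁻¹, hS, ?_, fun n x => ?_⟩
  · exact ENNReal.sub_lt_self ENNReal.one_ne_top one_ne_zero (ENNReal.inv_ne_zero.2 hS)
  · calc rr b lam D μ n x ≤ ((LO b lam M)^[n] G) x := hmono n _ _ hG1 x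
      _ ≤ (1 - S⁻¹) ^ n * G x := hiter n x
      _ ≤ _ := mul_le_mul_right (hGS x) _

end green

end Pool.Agent.R965.SG
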