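import Pool.Agent.R965.SG.Joint

open MeasureTheory ProbabilityTheory Finset Filter Topology
open scoped ENNReal NNReal BigOperators

namespace Pool.Agent.R965.SG

lemma cl_mono {x y : ℝ} (h : x ≤ y) : cl x ≤ cl y := by
  unfold cl
  exact max_le_max le_rfl (min_le_min h le_rfl)

section tree

variable {b : ℝ} (hb : 0 < b) {Ω : Type} [MeasurableSpace Ω] (P : Measure Ω)
  [IsProbabilityMeasure P] (τ : Ω → ℕ × (ℕ → (ℝ × ℝ) × Ω))

/-- replace subtrees by their states -/
def st {S : Type*} (s : Ω → S) (ω : Ω) : ℕ × (ℕ → (ℝ × ℝ) × S) :=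
  ((τ ω).1, fun k => (((τ ω).2 k).1, s ((τ ω).2 k).2))

lemma st_measurable (hτ : Measurable τ) {S : Type*} [MeasurableSpace S] (s : Ω → S)
    (hs : Measurable s) : Measurable (st τ s) := by
  have h : Measurable (fun p : ℕ × (ℕ → (ℝ × ℝ) × Ω) => (p.1, fun k => ((p.2 k).1, s (p.2 k).2))) :=
    by fun_prop
  exact h.comp hτ

lemma st_law (lam : ℝ≥0) (DD : Measure (ℝ × ℝ)) [IsProbabilityMeasure DD] (hτ : Measurable τ)
    (hP : P.map τ = Q lam (DD.prod P)) {S : Type*} [MeasurableSpace S] (s : Ω → S)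
    (hs : Measurable s) (F : ℕ × (ℕ → (ℝ × ℝ) × S) → S) (hF : Measurable F) :
    P.map (fun ω => F (st τ s ω)) = TT lam DD F (P.map s) := by
  unfold TT
  rw [← prod_map_right DD P s hs, ← Q_map lam (DD.prod P) _ (by fun_prop), ← hP,
    Measure.map_map (by fun_prop) hτ, Measure.map_map hF (by fun_prop)]
  rfl

/-- upper approximations of `X` -/
noncomputable def XN (b : ℝ) (τ : Ω → ℕ × (ℕ → (ℝ × ℝ) × Ω)) : ℕ → Ω → ℝ
  | 0 => fun _ => 1
  | n + 1 => fun ω => FX b (st τ (XN b τ n) ω)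

lemma XN_measurable (hτ : Measurable τ) (n : ℕ) : Measurable (XN b τ n) := by
  induction n with
  | zero => exact measurable_const
  | succ n ih => exact (FX_measurable b).comp (st_measurable τ hτ _ ih)

omit [MeasurableSpace Ω] in
lemma XN_pos (n : ℕ) (ω : Ω) : 0 < XN b τ n ω := by
  cases n with
  | zero => exact one_pos
  | succ n => exact Xc_pos _

include hb in
omit [MeasurableSpace Ω] in
lemma XN_anti_step (n : ℕ) : ∀ ω, XN b τ (n + 1) ω ≤ XN b τ n ω := by
  induction n with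
  | zero => intro ω; exact Xc_le_one _
  | succ n ih =>
    intro ω
    apply Xc_anti
    apply Finset.sum_le_sum
    intro k _
    exact sw_anti hb _ (cl_mono (ih _))

/-- the limit `X` -/
noncomputable def XL (b : ℝ) (τ : Ω → ℕ × (ℕ → (ℝ × ℝ) × Ω)) (ω : Ω) : ℝ := ⨅ n, XN b τ n ω

include hb in
omit [MeasurableSpace Ω] in
lemma XL_tendsto (ω : Ω) : Tendsto (fun n => XN b τ n ω) atTop (𝓝 (XL b τ ω)) := by
  apply tendsto_atTop_ciInf (antitone_nat_of_succ_le fun n => XN_anti_step hb τ n ω)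
  exact ⟨0, by rintro _ ⟨n, rfl⟩; exact (XN_pos τ n ω).le⟩

include hb in
lemma XL_measurable (hτ : Measurable τ) : Measurable (XL b τ) :=
  measurable_of_tendsto_metrizable (XN_measurable τ hτ) (tendsto_pi_nhds.2 (XL_tendsto hb τ))

include hb in
lemma sw_continuous (m : ℝ × ℝ) : Continuous (fun x => sw b (m, x)) := by
  unfold sw
  apply continuous_real_toNNReal.comp
  have hW : Continuous (fun x => W b m x) := by unfold W; fun_prop
  change Continuous (fun x => b * m.2 ^ 2 / W b m x)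
  exact continuous_const.div hW (fun x => (W_pos hb m x).ne')

lemma Xc_continuous : Continuous Xc := by
  unfold Xc
  apply continuous_const.div (by fun_prop)
  intro c
  positivity

include hb in
omit [MeasurableSpace Ω] in
lemma XL_rec (ω : Ω) : XL b τ ω = FX b (st τ (XL b τ) ω) := by
  have h1 := (XL_tendsto hb τ ω).comp (tendsto_add_atTop_nat 1)
  have h2 : Tendsto (fun n => FX b (st τ (XN b τ n) ω)) atTop (𝓝 (FX b (st τ (XL b τ) ω))) := by
    unfold FX st
    simp only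
    apply (Xc_continuous.tendsto _).comp
    apply tendsto_finsetSum
    intro k _
    exact ((sw_continuous hb _).tendsto _).comp (XL_tendsto hb τ _)
  exact tendsto_nhds_unique h1 h2

include hb in
omit [MeasurableSpace Ω] in
lemma XL_mem (ω : Ω) : 0 < XL b τ ω ∧ XL b τ ω ≤ 1 := by
  rw [XL_rec hb]
  exact ⟨Xc_pos _, Xc_le_one _⟩

/-- increments of `U` -/
noncomputable def dN (b : ℝ) (τ : Ω → ℕ × (ℕ → (ℝ × ℝ) × Ω)) : ℕ → Ω → ℝ
  | 0 => fun _ => 1
  | n + 1 => fun ω => (Fh b (st τ (fun ω' => (dN b τ n ω', XL b τ ω')) ω)).1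

include hb in
lemma dN_measurable (hτ : Measurable τ) (n : ℕ) : Measurable (dN b τ n) := by
  induction n with
  | zero => exact measurable_const
  | succ n ih =>
    have hX := XL_measurable hb τ hτ
    exact measurable_fst.comp ((Fh_measurable b).comp (st_measurable τ hτ _ (ih.prodMk hX)))

variable (lam : ℝ≥0) (D : Measure ℝ) [IsProbabilityMeasure D]

include hb in
lemma law_X (hτ : Measurable τ) (hP : P.map τ = Q lam ((D.prod D).prod P)) :
    (Cm b lam (D.prod D) (P.map (XL b τ))).map Xc = P.map (XL b τ) := by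
  rw [← TT_FX, ← st_law P τ lam (D.prod D) hτ hP _ (XL_measurable hb τ hτ) (FX b)
    (FX_measurable b)]
  congr 1
  ext ω
  exact (XL_rec hb τ ω).symm

include hb in
lemma law_d (hτ : Measurable τ) (hP : P.map τ = Q lam ((D.prod D).prod P)) (n : ℕ) :
    P.map (fun ω => (dN b τ n ω, XL b τ ω))
      = (TT lam (D.prod D) (Fh b))^[n] (P.map (fun ω => ((1 : ℝ), XL b τ ω))) := by
  induction n with
  | zero => rfl
  | succ n ih =>
    have hX := XL_measurable hb τ hτ
    have hd := dN_measurable hb τ hτ n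
    rw [Function.iterate_succ_apply', ← ih, ← st_law P τ lam (D.prod D) hτ hP _
      (hd.prodMk hX) (Fh b) (Fh_measurable b)]
    congr 1
    ext ω
    · rfl
    · exact XL_rec hb τ ω

include hb in
lemma d_bound (hD : D.map (fun x => -x) = D) (hτ : Measurable τ)
    (hP : P.map τ = Q lam ((D.prod D).prod P))
    (S ρ : ℝ≥0∞) (hdec : ∀ n x, rr b lam D (P.map (XL b τ)) n x ≤ ρ ^ n * S) (n : ℕ) :
    ∫⁻ ω, ENNReal.ofReal ((dN b τ n ω * cl (XL b τ ω)) ^ 2) ∂P ≤ ρ ^ n * S := by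
  have hX := XL_measurable hb τ hτ
  have hd := dN_measurable hb τ hτ n
  have hXp : IsProbabilityMeasure (P.map (XL b τ)) :=
    Measure.isProbabilityMeasure_map hX.aemeasurable
  have hfix := law_X hb P τ lam D hτ hP
  have h1X : Measurable (fun ω => ((1 : ℝ), XL b τ ω)) := by fun_prop
  have hκp : IsProbabilityMeasure (P.map (fun ω => ((1 : ℝ), XL b τ ω))) :=
    Measure.isProbabilityMeasure_map h1X.aemeasurable
  have hκm : (P.map (fun ω => ((1 : ℝ), XL b τ ω))).map Prod.snd = P.map (XL b τ) := by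
    rw [Measure.map_map measurable_snd h1X]
    rfl
  have h := Th_bound (b := b) lam D hD (P.map (XL b τ)) hfix _ hκm S ρ hdec n
  rw [← law_d hb P τ lam D hτ hP n, lintegral_map (by fun_prop) (hd.prodMk hX),
    lintegral_map (by fun_prop) h1X] at h
  refine h.trans ?_
  calc _ ≤ ρ ^ n * S * ∫⁻ _, 1 ∂P := by
        apply mul_le_mul_right
        apply lintegral_mono
        intro ω
        simp only
        rw [← ENNReal.ofReal_one]
        apply ENNReal.ofReal_le_ofReal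
        have h0 := cl_nonneg (XL b τ ω)
        have h1 := cl_le_one (XL b τ ω)
        nlinarith
    _ = _ := by simp

/-- Weighted Cauchy–Schwarz for series. -/
lemma tsum_sq_le (e : ℕ → ℝ≥0∞) (σ : ℝ≥0∞) (h0 : σ ≠ 0) (ht : σ ≠ ∞) :
    (∑' n, e n) ^ 2 ≤ (∑' n, σ ^ n) * ∑' n, (σ ^ n)⁻¹ * e n ^ 2 := by
  have h := cs_half (Measure.count : Measure ℕ) (fun n => σ ^ n) (fun n => (σ ^ n)⁻¹ * e n ^ 2)
    (measurable_of_countable _) (measurable_of_countable _)
  rw [lintegral_count, lintegral_count, lintegral_count] at h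
  have h1 : ∀ n, (σ ^ n) ^ (1 / 2 : ℝ) * ((σ ^ n)⁻¹ * e n ^ 2) ^ (1 / 2 : ℝ) = e n := by
    intro n
    rw [← ENNReal.mul_rpow_of_nonneg _ _ (by norm_num), ← mul_assoc,
      ENNReal.mul_inv_cancel (pow_ne_zero _ h0) (ENNReal.pow_ne_top ht), one_mul,
      ← ENNReal.rpow_natCast, ← ENNReal.rpow_mul]
    norm_num
  rw [tsum_congr h1] at h
  calc (∑' n, e n) ^ 2 ≤ ((∑' n, σ ^ n) ^ (1 / 2 : ℝ)
        * (∑' n, (σ ^ n)⁻¹ * e n ^ 2) ^ (1 / 2 : ℝ)) ^ 2 := by gcongr
    _ = _ := by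
        rw [← ENNReal.mul_rpow_of_nonneg _ _ (by norm_num), ← ENNReal.rpow_natCast,
          ← ENNReal.rpow_mul]
        norm_num

/-- the sum `U` -/
noncomputable def UL (b : ℝ) (τ : Ω → ℕ × (ℕ → (ℝ × ℝ) × Ω)) (ω : Ω) : ℝ := ∑' n, dN b τ n ω

include hb in
lemma UL_measurable (hτ : Measurable τ) : Measurable (UL b τ) :=
  Measurable.tsum (dN_measurable hb τ hτ)

include hb in
lemma sum_sq_finite (hD : D.map (fun x => -x) = D) (hτ : Measurable τ)
    (hP : P.map τ = Q lam ((D.prod D).prod P))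
    (S ρ : ℝ≥0∞) (hS : S ≠ ∞) (hρ : ρ < 1)
    (hdec : ∀ n x, rr b lam D (P.map (XL b τ)) n x ≤ ρ ^ n * S) :
    ∫⁻ ω, (∑' n, ‖dN b τ n ω * cl (XL b τ ω)‖ₑ) ^ 2 ∂P ≠ ∞ := by
  have hX := XL_measurable hb τ hτ
  have hd := dN_measurable hb τ hτ
  obtain ⟨σ, hρσ, hσ1⟩ := exists_between hρ
  have hσ0 : σ ≠ 0 := (lt_of_le_of_lt zero_le hρσ).ne'
  have hσt : σ ≠ ∞ := (hσ1.trans ENNReal.one_lt_top).ne
  have h1 : ∫⁻ ω, (∑' n, ‖dN b τ n ω * cl (XL b τ ω)‖ₑ) ^ 2 ∂P
      ≤ (∑' n, σ ^ n) * ∑' n, ((ρ / σ) ^ n * S) := by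
    calc _ ≤ ∫⁻ ω, (∑' n, σ ^ n) * ∑' n, (σ ^ n)⁻¹ * ‖dN b τ n ω * cl (XL b τ ω)‖ₑ ^ 2 ∂P :=
          lintegral_mono fun ω => tsum_sq_le _ σ hσ0 hσt
      _ = (∑' n, σ ^ n) * ∑' n, (σ ^ n)⁻¹ * ∫⁻ ω, ‖dN b τ n ω * cl (XL b τ ω)‖ₑ ^ 2 ∂P := by
          rw [lintegral_const_mul _ (by fun_prop), lintegral_tsum (fun n => by fun_prop)]
          congr 1
          refine tsum_congr fun n => ?_
          rw [lintegral_const_mul _ (by fun_prop)]
      _ ≤ _ := by
          apply mul_le_mul_right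
          apply ENNReal.tsum_le_tsum
          intro n
          have h2 : ∫⁻ ω, ‖dN b τ n ω * cl (XL b τ ω)‖ₑ ^ 2 ∂P ≤ ρ ^ n * S := by
            refine le_of_eq_of_le ?_ (d_bound hb P τ lam D hD hτ hP S ρ hdec n)
            refine lintegral_congr fun ω => ?_
            rw [Real.enorm_eq_ofReal_abs, ← ENNReal.ofReal_pow (abs_nonneg _), sq_abs]
          calc (σ ^ n)⁻¹ * ∫⁻ ω, ‖dN b τ n ω * cl (XL b τ ω)‖ₑ ^ 2 ∂P
              ≤ (σ ^ n)⁻¹ * (ρ ^ n * S) := mul_le_mul_right h2 _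
            _ = (ρ / σ) ^ n * S := by
              rw [div_eq_mul_inv, mul_pow, ENNReal.inv_pow]
              ring
  refine ne_top_of_le_ne_top ?_ h1
  rw [ENNReal.tsum_mul_right, ENNReal.tsum_geometric, ENNReal.tsum_geometric]
  have hq : ρ / σ < 1 := by
    rw [ENNReal.div_lt_iff (Or.inl hσ0) (Or.inl hσt), one_mul]
    exact hρσ
  refine ENNReal.mul_ne_top ?_ (ENNReal.mul_ne_top ?_ hS)
  · exact ENNReal.inv_ne_top.2 (tsub_pos_of_lt hσ1).ne'
  · exact ENNReal.inv_ne_top.2 (tsub_pos_of_lt hq).ne'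

omit [MeasurableSpace Ω] in
/-- the recursion for `U` at a good point. -/
lemma UL_rec (ω : Ω) (h0 : Summable (fun n => dN b τ n ω))
    (hk : ∀ k, Summable (fun n => dN b τ n ((τ ω).2 k).2)) :
    UL b τ ω = (FU b (st τ (fun ω' => (UL b τ ω', XL b τ ω')) ω)).1 := by
  have hlin : ∀ (m : ℝ × ℝ) (u x : ℝ), aw b (m, (u, x)) = u * aw b (m, (1, x)) := by
    intro m u x
    unfold aw
    ring
  unfold UL
  rw [h0.tsum_eq_zero_add]
  have h1 : ∀ n, dN b τ (n + 1) ω
      = - ∑ k ∈ range (τ ω).1, dN b τ n ((τ ω).2 k).2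
          * aw b (((τ ω).2 k).1, (1, XL b τ ((τ ω).2 k).2)) := by
    intro n
    change (Fh b (st τ (fun ω' => (dN b τ n ω', XL b τ ω')) ω)).1 = _
    unfold Fh st
    simp only
    congr 1
    refine Finset.sum_congr rfl fun k _ => ?_
    rw [hlin]
  rw [tsum_congr h1, tsum_neg, Summable.tsum_finsetSum (fun k _ => (hk k).mul_right _)]
  unfold FU st
  simp only
  rw [← sub_eq_add_neg]
  congr 1
  refine Finset.sum_congr rfl fun k _ => ?_
  rw [tsum_mul_right]
  exact (hlin _ _ _).symm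

include hb in
/-- Existence of a fixed point with finite `E (UX)²`, from a self-similar tree. -/
lemma exists_of_tree (hD : D.map (fun x => -x) = D) (hA : A2 D ≠ ∞) (hτ : Measurable τ)
    (hP : P.map τ = Q lam ((D.prod D).prod P)) :
    ∃ π : Measure (ℝ × ℝ), IsProbabilityMeasure π ∧ TT lam (D.prod D) (FU b) π = π ∧
      (∀ᵐ q ∂π, 0 < q.2 ∧ q.2 ≤ 1) ∧ ∫⁻ q, ENNReal.ofReal ((q.1 * cl q.2) ^ 2) ∂π ≠ ∞ := by
  have hX := XL_measurable hb τ hτ
  have hd := dN_measurable hb τ hτ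
  have hU := UL_measurable hb τ hτ
  have hXp : IsProbabilityMeasure (P.map (XL b τ)) :=
    Measure.isProbabilityMeasure_map hX.aemeasurable
  have hfix := law_X hb P τ lam D hτ hP
  obtain ⟨S, ρ, hS, hρ, hdec⟩ := decay hb lam D (P.map (XL b τ)) hfix hA
  have hfin := sum_sq_finite hb P τ lam D hD hτ hP S ρ hS hρ hdec
  have hUX : Measurable (fun ω => (UL b τ ω, XL b τ ω)) := hU.prodMk hX
  -- summability almost surely
  have hsum : ∀ᵐ ω ∂P, Summable (fun n => dN b τ n ω) := by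
    have h1 : ∀ᵐ ω ∂P, (∑' n, ‖dN b τ n ω * cl (XL b τ ω)‖ₑ) ^ 2 < ∞ :=
      ae_lt_top (by fun_prop) hfin
    filter_upwards [h1] with ω hω
    have hm := XL_mem hb τ ω
    have h2 : ∑' n, ‖dN b τ n ω * cl (XL b τ ω)‖ₑ ≠ ∞ := by
      intro htop
      rw [htop] at hω
      simp at hω
    have h3 : Summable (fun n => dN b τ n ω * cl (XL b τ ω)) := by
      apply Summable.of_norm
      have h4 := ENNReal.summable_toReal h2
      refine h4.congr fun n => ?_
      rw [toReal_enorm]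
    rw [cl_of_mem hm.1.le hm.2] at h3
    exact (summable_mul_right_iff hm.1.ne').1 h3
  have hsumk : ∀ᵐ ω ∂P, ∀ k, Summable (fun n => dN b τ n ((τ ω).2 k).2) := by
    have h1 : ∀ᵐ z ∂((D.prod D).prod P), Summable (fun n => dN b τ n z.2) := by
      have hq : Measure.QuasiMeasurePreserving (Prod.snd : (ℝ × ℝ) × Ω → Ω)
          ((D.prod D).prod P) P := Measure.quasiMeasurePreserving_snd
      exact hq.ae hsum
    have h2 := ae_Q lam ((D.prod D).prod P) h1
    rw [← hP] at h2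
    exact ae_of_ae_map hτ.aemeasurable h2
  have hrec : ∀ᵐ ω ∂P, (UL b τ ω, XL b τ ω)
      = FU b (st τ (fun ω' => (UL b τ ω', XL b τ ω')) ω) := by
    filter_upwards [hsum, hsumk] with ω h0 hk
    ext
    · exact UL_rec τ ω h0 hk
    · exact XL_rec hb τ ω
  refine ⟨P.map (fun ω => (UL b τ ω, XL b τ ω)),
    Measure.isProbabilityMeasure_map hUX.aemeasurable, ?_, ?_, ?_⟩
  · rw [← st_law P τ lam (D.prod D) hτ hP _ hUX (FU b) (FU_measurable b)]
    exact (Measure.map_congr hrec).symm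
  · rw [ae_map_iff hUX.aemeasurable]
    · exact Eventually.of_forall fun ω => XL_mem hb τ ω
    · exact (measurableSet_lt measurable_const measurable_snd).inter
        (measurableSet_le measurable_snd measurable_const)
  · rw [lintegral_map (by fun_prop) hUX]
    refine ne_top_of_le_ne_top hfin ?_
    apply lintegral_mono_ae
    filter_upwards [hsum] with ω hω
    have h1 : ENNReal.ofReal ((UL b τ ω * cl (XL b τ ω)) ^ 2)
        = ‖UL b τ ω * cl (XL b τ ω)‖ₑ ^ 2 := by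
      rw [Real.enorm_eq_ofReal_abs, ← ENNReal.ofReal_pow (abs_nonneg _), sq_abs]
    rw [h1]
    gcongr
    unfold UL
    rw [← tsum_mul_right]
    exact enorm_tsum_le_tsum_enorm

end tree

/-- A fixed point with `E (UX)² < ∞` has `E U² < ∞`. -/
theorem fixed_U_sq {b : ℝ} (hb : 0 < b) (lam : ℝ≥0) (D : Measure ℝ) [IsProbabilityMeasure D]
    (hD : D.map (fun x => -x) = D) (hA : A2 D ≠ ∞) (π : Measure (ℝ × ℝ)) [IsProbabilityMeasure π]
    (hfix : TT lam (D.prod D) (FU b) π = π)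
    (h2 : ∫⁻ q, ENNReal.ofReal ((q.1 * cl q.2) ^ 2) ∂π ≠ ∞) :
    ∫⁻ q, ENNReal.ofReal (q.1 ^ 2) ∂π ≠ ∞ := by
  have hs : Measurable (fun z : (ℝ × ℝ) × (ℝ × ℝ) => sw b (z.1, z.2.2)) := by fun_prop
  have hCp := CP_prob lam ((D.prod D).prod π) _ hs
  have hfl := flip lam ((D.prod D).prod π) (fun z : (ℝ × ℝ) × (ℝ × ℝ) => sw b (z.1, z.2.2)) hs
    (aw b) (aw_measurable b) (fun z => ((- z.1.1, z.1.2), z.2)) (by fun_prop)
    (flip_inv D hD π) (by intro z; unfold aw W; simp; ring)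
    (by intro z; unfold sw W; simp) (fun _ => 1) measurable_const
  simp only [mul_one, lintegral_const, measure_univ] at hfl
  have h3 : ∫⁻ z, ENNReal.ofReal (aw b z ^ 2) ∂((D.prod D).prod π)
      ≤ ENNReal.ofReal (b ^ 2) * (A2 D * A2 D)
        * ∫⁻ q, ENNReal.ofReal ((q.1 * cl q.2) ^ 2) ∂π := by
    calc _ ≤ ∫⁻ z : (ℝ × ℝ) × (ℝ × ℝ), (ENNReal.ofReal (b ^ 2)
          * (ENNReal.ofReal (z.1.1 ^ 2) * ENNReal.ofReal (z.1.2 ^ 2)))
          * ENNReal.ofReal ((z.2.1 * cl z.2.2) ^ 2) ∂((D.prod D).prod π) := by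
          apply lintegral_mono
          intro z
          simp only
          rw [← ENNReal.ofReal_mul (by positivity), ← ENNReal.ofReal_mul (by positivity),
            ← ENNReal.ofReal_mul (by positivity)]
          apply ENNReal.ofReal_le_ofReal
          unfold aw
          have hW := W_ge_one hb z.1 z.2.2
          rw [div_pow]
          have hW2 : 1 ≤ W b z.1 z.2.2 ^ 2 := one_le_pow₀ hW
          rw [div_le_iff₀ (by positivity)]
          have h0 : 0 ≤ b ^ 2 * (z.1.1 ^ 2 * z.1.2 ^ 2) * (z.2.1 * cl z.2.2) ^ 2 := by positivity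
          calc (b * z.1.1 * z.1.2 * (z.2.1 * cl z.2.2)) ^ 2
              = b ^ 2 * (z.1.1 ^ 2 * z.1.2 ^ 2) * (z.2.1 * cl z.2.2) ^ 2 * 1 := by ring
            _ ≤ _ := mul_le_mul_of_nonneg_left hW2 h0
      _ = _ := by
          rw [lintegral_prod_mul (f := fun m : ℝ × ℝ => ENNReal.ofReal (b ^ 2)
              * (ENNReal.ofReal (m.1 ^ 2) * ENNReal.ofReal (m.2 ^ 2)))
              (g := fun q : ℝ × ℝ => ENNReal.ofReal ((q.1 * cl q.2) ^ 2))
              (by fun_prop) (by fun_prop),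
            lintegral_const_mul _ (by fun_prop),
            lintegral_prod_mul (f := fun x : ℝ => ENNReal.ofReal (x ^ 2))
              (g := fun x : ℝ => ENNReal.ofReal (x ^ 2)) (by fun_prop) (by fun_prop)]
          rfl
  have h4 : ∫⁻ q, ENNReal.ofReal (q.1 ^ 2) ∂π
      ≤ 2 + 2 * (lam * (ENNReal.ofReal (b ^ 2) * (A2 D * A2 D)
        * ∫⁻ q, ENNReal.ofReal ((q.1 * cl q.2) ^ 2) ∂π)) := by
    conv_lhs => rw [← hfix]
    unfold TT
    rw [lintegral_map (by fun_prop) (FU_measurable b)]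
    have hq := measurable_qsum (aw b) (aw_measurable b)
    calc _ ≤ ∫⁻ p : ℕ × (ℕ → (ℝ × ℝ) × (ℝ × ℝ)),
          (2 + 2 * ENNReal.ofReal ((∑ k ∈ range p.1, aw b (p.2 k)) ^ 2))
            ∂(Q lam ((D.prod D).prod π)) := by
          apply lintegral_mono
          intro p
          simp only
          have e2 : (2 : ℝ≥0∞) = ENNReal.ofReal 2 := by simp
          rw [e2, ← ENNReal.ofReal_mul (by norm_num), ← ENNReal.ofReal_add (by norm_num)
            (by positivity)]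
          apply ENNReal.ofReal_le_ofReal
          unfold FU
          simp only
          nlinarith [sq_nonneg (1 + ∑ k ∈ range p.1, aw b (p.2 k))]
      _ = 2 + 2 * ∫⁻ p : ℕ × (ℕ → (ℝ × ℝ) × (ℝ × ℝ)),
          ENNReal.ofReal ((∑ k ∈ range p.1, aw b (p.2 k)) ^ 2) ∂(Q lam ((D.prod D).prod π)) := by
          rw [lintegral_add_left measurable_const,
            lintegral_const_mul _ (hq.pow_const 2).ennreal_ofReal]
          simp
      _ ≤ _ := by
          rw [hfl]
          gcongr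
  refine ne_top_of_le_ne_top ?_ h4
  refine ENNReal.add_ne_top.2 ⟨by norm_num, ENNReal.mul_ne_top (by norm_num) ?_⟩
  refine ENNReal.mul_ne_top (by simp) (ENNReal.mul_ne_top ?_ h2)
  exact ENNReal.mul_ne_top (by simp) (ENNReal.mul_ne_top hA hA)

/-- Existence of a fixed point of the joint recursion. -/
theorem joint_exists {b : ℝ} (hb : 0 < b) (lam : ℝ≥0) (D : Measure ℝ) [IsProbabilityMeasure D]
    (hD : D.map (fun x => -x) = D) (hA : A2 D ≠ ∞) :
    ∃ π : Measure (ℝ × ℝ), IsProbabilityMeasure π ∧ TT lam (D.prod D) (FU b) π = π ∧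
      (∀ᵐ q ∂π, 0 < q.2 ∧ q.2 ≤ 1) ∧ ∫⁻ q, ENNReal.ofReal ((q.1 * cl q.2) ^ 2) ∂π ≠ ∞ := by
  obtain ⟨Ω, _, P, τ, hPp, hτ, hPτ⟩ := exists_tree lam (D.prod D)
  exact exists_of_tree hb P τ lam D hD hA hτ hPτ

end Pool.Agent.R965.SG
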