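import Pool.Agent.R965.SG.Coup

open MeasureTheory ProbabilityTheory Finset Filter Topology
open scoped ENNReal NNReal BigOperators

namespace Pool.Agent.R965.SG

/-! ### Generic recursions -/

section TT

variable {S : Type*} [MeasurableSpace S] {S' : Type*} [MeasurableSpace S']

/-- The recursion with update function `F`. -/
noncomputable def TT (lam : ℝ≥0) (DD : Measure (ℝ × ℝ))
    (F : ℕ × (ℕ → (ℝ × ℝ) × S) → S) (κ : Measure S) : Measure S :=
  (Q lam (DD.prod κ)).map F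

lemma TT_prob (lam : ℝ≥0) (DD : Measure (ℝ × ℝ)) [IsProbabilityMeasure DD]
    (F : ℕ × (ℕ → (ℝ × ℝ) × S) → S) (hF : Measurable F) (κ : Measure S)
    [IsProbabilityMeasure κ] : IsProbabilityMeasure (TT lam DD F κ) :=
  Measure.isProbabilityMeasure_map hF.aemeasurable

lemma TT_map (lam : ℝ≥0) (DD : Measure (ℝ × ℝ)) [IsProbabilityMeasure DD]
    (F : ℕ × (ℕ → (ℝ × ℝ) × S) → S) (hF : Measurable F)
    (F' : ℕ × (ℕ → (ℝ × ℝ) × S') → S') (hF' : Measurable F')
    (φ : S → S') (hφ : Measurable φ)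
    (hint : ∀ p, F' (p.1, fun k => ((p.2 k).1, φ (p.2 k).2)) = φ (F p))
    (κ : Measure S) [IsProbabilityMeasure κ] :
    TT lam DD F' (κ.map φ) = (TT lam DD F κ).map φ := by
  unfold TT
  rw [← prod_map_right DD κ φ hφ, ← Q_map lam (DD.prod κ) _ (by fun_prop),
    Measure.map_map hF' (by fun_prop), Measure.map_map hφ hF]
  congr 1
  ext p
  exact hint p

lemma TT_iter_prob (lam : ℝ≥0) (DD : Measure (ℝ × ℝ)) [IsProbabilityMeasure DD]
    (F : ℕ × (ℕ → (ℝ × ℝ) × S) → S) (hF : Measurable F) (κ : Measure S)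
    [IsProbabilityMeasure κ] (n : ℕ) : IsProbabilityMeasure ((TT lam DD F)^[n] κ) := by
  induction n with
  | zero => simp only [Function.iterate_zero, id]; infer_instance
  | succ n ih =>
    rw [Function.iterate_succ_apply']
    exact TT_prob lam DD F hF _

lemma TT_iter_map (lam : ℝ≥0) (DD : Measure (ℝ × ℝ)) [IsProbabilityMeasure DD]
    (F : ℕ × (ℕ → (ℝ × ℝ) × S) → S) (hF : Measurable F)
    (F' : ℕ × (ℕ → (ℝ × ℝ) × S') → S') (hF' : Measurable F')
    (φ : S → S') (hφ : Measurable φ)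
    (hint : ∀ p, F' (p.1, fun k => ((p.2 k).1, φ (p.2 k).2)) = φ (F p))
    (κ : Measure S) [IsProbabilityMeasure κ] (n : ℕ) :
    ((TT lam DD F)^[n] κ).map φ = (TT lam DD F')^[n] (κ.map φ) := by
  induction n with
  | zero => rfl
  | succ n ih =>
    have := TT_iter_prob lam DD F hF κ n
    rw [Function.iterate_succ_apply', Function.iterate_succ_apply', ← ih,
      TT_map lam DD F hF F' hF' φ hφ hint]

end TT

/-- contribution of one item to the first coordinate -/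
noncomputable def aw (b : ℝ) (z : (ℝ × ℝ) × (ℝ × ℝ)) : ℝ :=
  b * z.1.1 * z.1.2 * (z.2.1 * cl z.2.2) / W b z.1 z.2.2

@[fun_prop] lemma aw_measurable (b : ℝ) : Measurable (aw b) := by
  unfold aw W; fun_prop

/-- `X`-update -/
noncomputable def FX (b : ℝ) (p : ℕ × (ℕ → (ℝ × ℝ) × ℝ)) : ℝ :=
  Xc (∑ j ∈ range p.1, sw b (p.2 j))

/-- homogeneous update -/
noncomputable def Fh (b : ℝ) (p : ℕ × (ℕ → (ℝ × ℝ) × (ℝ × ℝ))) : ℝ × ℝ :=
  (- ∑ j ∈ range p.1, aw b (p.2 j), Xc (∑ j ∈ range p.1, sw b ((p.2 j).1, (p.2 j).2.2)))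

/-- the update of the problem (clipped) -/
noncomputable def FU (b : ℝ) (p : ℕ × (ℕ → (ℝ × ℝ) × (ℝ × ℝ))) : ℝ × ℝ :=
  (1 - ∑ j ∈ range p.1, aw b (p.2 j), Xc (∑ j ∈ range p.1, sw b ((p.2 j).1, (p.2 j).2.2)))

/-- coupled update -/
noncomputable def F3 (b : ℝ) (p : ℕ × (ℕ → (ℝ × ℝ) × (ℝ × (ℝ × ℝ)))) : ℝ × (ℝ × ℝ) :=
  (1 - ∑ j ∈ range p.1, aw b ((p.2 j).1, ((p.2 j).2.1, (p.2 j).2.2.2)),
    (1 - ∑ j ∈ range p.1, aw b ((p.2 j).1, (p.2 j).2.2),
      Xc (∑ j ∈ range p.1, sw b ((p.2 j).1, (p.2 j).2.2.2))))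

lemma FX_measurable (b : ℝ) : Measurable (FX b) :=
  measurable_Xc.comp (measurable_qsum _ (measurable_sw b))

lemma Fh_measurable (b : ℝ) : Measurable (Fh b) := by
  refine Measurable.prodMk ?_ ?_
  · exact (measurable_qsum _ (aw_measurable b)).neg
  · exact measurable_Xc.comp (measurable_qsum (fun z : (ℝ × ℝ) × (ℝ × ℝ) => sw b (z.1, z.2.2))
      (by fun_prop))

lemma FU_measurable (b : ℝ) : Measurable (FU b) := by
  refine Measurable.prodMk ?_ ?_
  · exact (measurable_qsum _ (aw_measurable b)).const_sub 1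
  · exact measurable_Xc.comp (measurable_qsum (fun z : (ℝ × ℝ) × (ℝ × ℝ) => sw b (z.1, z.2.2))
      (by fun_prop))

lemma F3_measurable (b : ℝ) : Measurable (F3 b) := by
  refine Measurable.prodMk ?_ (Measurable.prodMk ?_ ?_)
  · exact (measurable_qsum (fun z : (ℝ × ℝ) × (ℝ × (ℝ × ℝ)) => aw b (z.1, (z.2.1, z.2.2.2)))
      (by fun_prop)).const_sub 1
  · exact (measurable_qsum (fun z : (ℝ × ℝ) × (ℝ × (ℝ × ℝ)) => aw b (z.1, z.2.2))
      (by fun_prop)).const_sub 1
  · exact measurable_Xc.comp (measurable_qsum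
      (fun z : (ℝ × ℝ) × (ℝ × (ℝ × ℝ)) => sw b (z.1, z.2.2.2)) (by fun_prop))

lemma TT_FX (b : ℝ) (lam : ℝ≥0) (DD : Measure (ℝ × ℝ)) (μ : Measure ℝ) :
    TT lam DD (FX b) μ = (Cm b lam DD μ).map Xc := by
  unfold TT Cm CP FX
  rw [Measure.map_map measurable_Xc (measurable_qsum _ (measurable_sw b))]
  rfl

section LemmaE

variable {b : ℝ} (lam : ℝ≥0) (D : Measure ℝ) [IsProbabilityMeasure D]

lemma flip_inv {S : Type*} [MeasurableSpace S] (hD : D.map (fun x => -x) = D) (κ : Measure S)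
    [IsProbabilityMeasure κ] :
    ((D.prod D).prod κ).map (fun z => ((- z.1.1, z.1.2), z.2)) = (D.prod D).prod κ := by
  have h1 : (fun z : (ℝ × ℝ) × S => ((- z.1.1, z.1.2), z.2))
      = Prod.map (Prod.map (fun x : ℝ => -x) id) id := rfl
  rw [h1, ← Measure.map_prod_map _ _ (by fun_prop) measurable_id,
    ← Measure.map_prod_map _ _ (by fun_prop) measurable_id, hD, Measure.map_id, Measure.map_id]

/-- Second moment identity for the homogeneous recursion. -/
lemma lemmaE (hD : D.map (fun x => -x) = D) (κ : Measure (ℝ × ℝ)) [IsProbabilityMeasure κ]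
    (g : ℝ → ℝ≥0∞) (hg : Measurable g) :
    ∫⁻ q, ENNReal.ofReal ((q.1 * cl q.2) ^ 2) * g q.2 ∂(TT lam (D.prod D) (Fh b) κ)
      = ∫⁻ q, ENNReal.ofReal ((q.1 * cl q.2) ^ 2)
        * LO b lam ((D.prod D).prod (Cm b lam (D.prod D) (κ.map Prod.snd))) g q.2 ∂κ := by
  rw [op_mecke b lam (D.prod D) κ Prod.snd measurable_snd
    (fun q => ENNReal.ofReal ((q.1 * cl q.2) ^ 2)) (by fun_prop) g hg]
  unfold TT
  rw [lintegral_map (by fun_prop) (Fh_measurable b)]
  have hs : Measurable (fun z : (ℝ × ℝ) × (ℝ × ℝ) => sw b (z.1, z.2.2)) := by fun_prop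
  have hfl := flip lam ((D.prod D).prod κ) (fun z : (ℝ × ℝ) × (ℝ × ℝ) => sw b (z.1, z.2.2)) hs
    (aw b) (aw_measurable b) (fun z => ((- z.1.1, z.1.2), z.2)) (by fun_prop)
    (flip_inv D hD κ) (by intro z; unfold aw W; simp; ring)
    (by intro z; unfold sw W; simp) (fun t => ENNReal.ofReal (Xc t ^ 2) * g (Xc t)) (by fun_prop)
  have l1 : ∀ p : ℕ × (ℕ → (ℝ × ℝ) × (ℝ × ℝ)),
      ENNReal.ofReal (((Fh b p).1 * cl (Fh b p).2) ^ 2) * g (Fh b p).2
      = ENNReal.ofReal ((∑ k ∈ range p.1, aw b (p.2 k)) ^ 2)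
        * (ENNReal.ofReal (Xc (∑ j ∈ range p.1, sw b ((p.2 j).1, (p.2 j).2.2)) ^ 2)
          * g (Xc (∑ j ∈ range p.1, sw b ((p.2 j).1, (p.2 j).2.2)))) := by
    intro p
    unfold Fh
    simp only
    rw [cl_Xc, ← mul_assoc, ← ENNReal.ofReal_mul (by positivity)]
    congr 2
    ring
  rw [lintegral_congr l1, hfl]
  congr 1
  refine lintegral_congr fun z => lintegral_congr fun c => ?_
  rw [← mul_assoc, ← mul_assoc, ← ENNReal.ofReal_mul (by positivity),
    ← ENNReal.ofReal_mul (by positivity)]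
  congr 2
  unfold aw
  ring

lemma Th_snd (κ : Measure (ℝ × ℝ)) [IsProbabilityMeasure κ] :
    (TT lam (D.prod D) (Fh b) κ).map Prod.snd = (Cm b lam (D.prod D) (κ.map Prod.snd)).map Xc := by
  rw [← TT_FX]
  exact (TT_map lam (D.prod D) (Fh b) (Fh_measurable b) (FX b) (FX_measurable b) Prod.snd
    measurable_snd (fun p => rfl) κ).symm

/-- Iterated second moment bound. -/
lemma lemmaE_iter (hD : D.map (fun x => -x) = D) (μ : Measure ℝ) [IsProbabilityMeasure μ]
    (hfix : (Cm b lam (D.prod D) μ).map Xc = μ) (κ : Measure (ℝ × ℝ)) [IsProbabilityMeasure κ]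
    (hκ : κ.map Prod.snd = μ) (n : ℕ) :
    ((TT lam (D.prod D) (Fh b))^[n] κ).map Prod.snd = μ ∧
    ∀ (g : ℝ → ℝ≥0∞), Measurable g →
    ∫⁻ q, ENNReal.ofReal ((q.1 * cl q.2) ^ 2) * g q.2 ∂((TT lam (D.prod D) (Fh b))^[n] κ)
      = ∫⁻ q, ENNReal.ofReal ((q.1 * cl q.2) ^ 2)
        * (((LO b lam ((D.prod D).prod (Cm b lam (D.prod D) μ)))^[n] g) q.2) ∂κ := by
  have hC := Cm_prob (b := b) lam D μ
  induction n with
  | zero => exact ⟨hκ, fun g _ => rfl⟩
  | succ n ih =>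
    obtain ⟨h1, h2⟩ := ih
    have hp := TT_iter_prob lam (D.prod D) (Fh b) (Fh_measurable b) κ n
    rw [Function.iterate_succ_apply']
    refine ⟨?_, fun g hg => ?_⟩
    · rw [Th_snd lam D, h1, hfix]
    · rw [lemmaE lam D hD _ g hg, h1, h2 _ (LO_measurable lam _ hg), Function.iterate_succ_apply]

lemma Th_bound (hD : D.map (fun x => -x) = D) (μ : Measure ℝ) [IsProbabilityMeasure μ]
    (hfix : (Cm b lam (D.prod D) μ).map Xc = μ) (κ : Measure (ℝ × ℝ)) [IsProbabilityMeasure κ]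
    (hκ : κ.map Prod.snd = μ) (S ρ : ℝ≥0∞) (hdec : ∀ n x, rr b lam D μ n x ≤ ρ ^ n * S) (n : ℕ) :
    ∫⁻ q, ENNReal.ofReal ((q.1 * cl q.2) ^ 2) ∂((TT lam (D.prod D) (Fh b))^[n] κ)
      ≤ ρ ^ n * S * ∫⁻ q, ENNReal.ofReal ((q.1 * cl q.2) ^ 2) ∂κ := by
  have h := (lemmaE_iter (b := b) lam D hD μ hfix κ hκ n).2 (fun _ => 1) measurable_const
  simp only [mul_one] at h
  rw [h, ← lintegral_const_mul _ (by fun_prop)]
  apply lintegral_mono
  intro q
  simp only
  rw [mul_comm]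
  exact mul_le_mul_left (hdec n q.2) _

end LemmaE

section jointUnique

variable {b : ℝ} (hb : 0 < b) (lam : ℝ≥0) (D : Measure ℝ) [IsProbabilityMeasure D]

/-- `(u,x) ↦ (u x, x)` -/
noncomputable def hmap (q : ℝ × ℝ) : ℝ × ℝ := (q.1 * cl q.2, q.2)

@[fun_prop] lemma hmap_measurable : Measurable hmap := by unfold hmap; fun_prop

lemma TU_snd (κ : Measure (ℝ × ℝ)) [IsProbabilityMeasure κ] :
    (TT lam (D.prod D) (FU b) κ).map Prod.snd = (Cm b lam (D.prod D) (κ.map Prod.snd)).map Xc := by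
  rw [← TT_FX]
  exact (TT_map lam (D.prod D) (FU b) (FU_measurable b) (FX b) (FX_measurable b) Prod.snd
    measurable_snd (fun p => rfl) κ).symm

include hb in
lemma joint_conv (hD : D.map (fun x => -x) = D) (hA : A2 D ≠ ∞)
    (μ : Measure ℝ) [IsProbabilityMeasure μ]
    (hfix : (Cm b lam (D.prod D) μ).map Xc = μ) (π : Measure (ℝ × ℝ)) [IsProbabilityMeasure π]
    (hπμ : π.map Prod.snd = μ) (hπ : TT lam (D.prod D) (FU b) π = π)
    (h2 : ∫⁻ q, ENNReal.ofReal ((q.1 * cl q.2) ^ 2) ∂π ≠ ∞) (L : StrongDual ℝ (ℝ × ℝ)) :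
    Tendsto (fun n => charFunDual (((TT lam (D.prod D) (FU b))^[n]
      (μ.map (fun x => ((1 : ℝ), x)))).map hmap) L) atTop (𝓝 (charFunDual (π.map hmap) L)) := by
  obtain ⟨S, ρ, hS, hρ, hdec⟩ := decay hb lam D μ hfix hA
  set κ0 : Measure (ℝ × (ℝ × ℝ)) := π.map (fun q => (q.1, ((1 : ℝ), q.2))) with hκ0
  have hκ0p : IsProbabilityMeasure κ0 :=
    Measure.isProbabilityMeasure_map (by fun_prop)
  set κ : ℕ → Measure (ℝ × (ℝ × ℝ)) := fun n => (TT lam (D.prod D) (F3 b))^[n] κ0 with hκ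
  have hκp : ∀ n, IsProbabilityMeasure (κ n) :=
    fun n => TT_iter_prob lam (D.prod D) (F3 b) (F3_measurable b) κ0 n
  have m1 : ∀ n, (κ n).map (fun t => (t.1, t.2.2)) = π := by
    intro n
    rw [hκ, TT_iter_map lam (D.prod D) (F3 b) (F3_measurable b) (FU b) (FU_measurable b)
      (fun t => (t.1, t.2.2)) (by fun_prop) (fun p => rfl) κ0 n, hκ0,
      Measure.map_map (by fun_prop) (by fun_prop)]
    have : ((fun t : ℝ × (ℝ × ℝ) => (t.1, t.2.2)) ∘ fun q : ℝ × ℝ => (q.1, ((1 : ℝ), q.2)))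
        = id := rfl
    rw [this, Measure.map_id]
    exact Function.iterate_fixed hπ n
  have m2 : ∀ n, (κ n).map (fun t => t.2) = (TT lam (D.prod D) (FU b))^[n]
      (μ.map (fun x => ((1 : ℝ), x))) := by
    intro n
    rw [hκ, TT_iter_map lam (D.prod D) (F3 b) (F3_measurable b) (FU b) (FU_measurable b)
      (fun t => t.2) (by fun_prop) (fun p => rfl) κ0 n, hκ0,
      Measure.map_map (by fun_prop) (by fun_prop), ← hπμ,
      Measure.map_map (by fun_prop) (by fun_prop)]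
    rfl
  set κh : Measure (ℝ × ℝ) := π.map (fun q => (q.1 - 1, q.2)) with hκh
  have hκhp : IsProbabilityMeasure κh := Measure.isProbabilityMeasure_map (by fun_prop)
  have hκhm : κh.map Prod.snd = μ := by
    rw [hκh, Measure.map_map (by fun_prop) (by fun_prop), ← hπμ]
    rfl
  have m3 : ∀ n, (κ n).map (fun t => (t.1 - t.2.1, t.2.2))
      = (TT lam (D.prod D) (Fh b))^[n] κh := by
    intro n
    rw [hκ, TT_iter_map lam (D.prod D) (F3 b) (F3_measurable b) (Fh b) (Fh_measurable b)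
      (fun t => (t.1 - t.2.1, t.2.2)) (by fun_prop) ?_ κ0 n, hκ0,
      Measure.map_map (by fun_prop) (by fun_prop)]
    · rfl
    · intro p
      unfold Fh F3
      simp only
      congr 1
      have : ∀ j, aw b ((p.2 j).1, ((p.2 j).2.1 - (p.2 j).2.2.1, (p.2 j).2.2.2))
          = aw b ((p.2 j).1, ((p.2 j).2.1, (p.2 j).2.2.2)) - aw b ((p.2 j).1, (p.2 j).2.2) := by
        intro j
        unfold aw
        ring
      rw [Finset.sum_congr rfl (fun j _ => this j), Finset.sum_sub_distrib]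
      ring
  -- second moment of the difference
  have hfin : ∫⁻ q, ENNReal.ofReal ((q.1 * cl q.2) ^ 2) ∂κh ≠ ∞ := by
    rw [hκh, lintegral_map (by fun_prop) (by fun_prop)]
    have hle : ∫⁻ q : ℝ × ℝ, ENNReal.ofReal (((q.1 - 1) * cl q.2) ^ 2) ∂π
        ≤ 2 * ∫⁻ q, ENNReal.ofReal ((q.1 * cl q.2) ^ 2) ∂π + 2 := by
      calc _ ≤ ∫⁻ q : ℝ × ℝ, (2 * ENNReal.ofReal ((q.1 * cl q.2) ^ 2) + 2) ∂π := by
            apply lintegral_mono
            intro q
            simp only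
            have e2 : (2 : ℝ≥0∞) = ENNReal.ofReal 2 := by simp
            rw [e2, ← ENNReal.ofReal_mul (by norm_num), ← ENNReal.ofReal_add (by positivity)
              (by norm_num)]
            apply ENNReal.ofReal_le_ofReal
            have h0 := cl_nonneg q.2
            have h1 := cl_le_one q.2
            nlinarith [sq_nonneg (q.1 * cl q.2 + cl q.2)]
        _ = _ := by
            rw [lintegral_add_right _ measurable_const, lintegral_const_mul _ (by fun_prop)]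
            simp
    refine ne_top_of_le_ne_top ?_ hle
    exact ENNReal.add_ne_top.2 ⟨ENNReal.mul_ne_top (by norm_num) h2, by norm_num⟩
  have hbound : ∀ n, ∫⁻ t, ‖hmap (t.1, t.2.2) - hmap t.2‖ₑ ∂(κ n)
      ≤ (ρ ^ n * S * ∫⁻ q, ENNReal.ofReal ((q.1 * cl q.2) ^ 2) ∂κh) ^ (1 / 2 : ℝ) := by
    intro n
    have e1 : ∀ t : ℝ × (ℝ × ℝ), ‖hmap (t.1, t.2.2) - hmap t.2‖ₑ
        = (ENNReal.ofReal (((t.1 - t.2.1) * cl t.2.2) ^ 2)) ^ (1 / 2 : ℝ)
          * (1 : ℝ≥0∞) ^ (1 / 2 : ℝ) := by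
      intro t
      have e0 : hmap (t.1, t.2.2) - hmap t.2 = ((t.1 - t.2.1) * cl t.2.2, 0) := by
        unfold hmap
        ext
        · simp; ring
        · simp
      rw [e0, ENNReal.one_rpow, mul_one, ← sq_abs, ← ofReal_sqrt_sq (abs_nonneg _),
        ← Real.enorm_eq_ofReal_abs, ← ofReal_norm, ← ofReal_norm, Prod.norm_def]
      simp
    rw [lintegral_congr e1]
    refine (cs_half (κ n) _ _ (by fun_prop) measurable_const).trans ?_
    have e3 : ∫⁻ z : ℝ × (ℝ × ℝ), (1 : ℝ≥0∞) ∂(κ n) = 1 := by simp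
    rw [e3, ENNReal.one_rpow, mul_one]
    apply ENNReal.rpow_le_rpow _ (by norm_num)
    have e2 := Th_bound (b := b) lam D hD μ hfix κh hκhm S ρ hdec n
    rw [← m3 n, lintegral_map (by fun_prop) (by fun_prop)] at e2
    exact e2
  have hlim : Tendsto (fun n => (ρ ^ n * S * ∫⁻ q, ENNReal.ofReal ((q.1 * cl q.2) ^ 2) ∂κh)
      ^ (1 / 2 : ℝ)) atTop (𝓝 0) := by
    have t1 : Tendsto (fun n : ℕ => ρ ^ n) atTop (𝓝 0) :=
      ENNReal.tendsto_pow_atTop_nhds_zero_of_lt_one hρ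
    have t2 : Tendsto (fun n : ℕ => ρ ^ n * S) atTop (𝓝 (0 * S)) :=
      ENNReal.Tendsto.mul_const t1 (Or.inr hS)
    have t3 := ENNReal.Tendsto.mul_const t2 (Or.inr hfin)
    rw [zero_mul, zero_mul] at t3
    have t4 := ((ENNReal.continuous_rpow_const (y := (1 / 2 : ℝ))).tendsto _).comp t3
    rw [ENNReal.zero_rpow_of_pos (by norm_num)] at t4
    exact t4
  have hconv : Tendsto (fun n => ∫⁻ t, ‖hmap (t.1, t.2.2) - hmap t.2‖ₑ ∂(κ n)) atTop (𝓝 0) :=
    tendsto_of_tendsto_of_tendsto_of_le_of_le tendsto_const_nhds hlim (fun _ => zero_le) hbound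
  refine tendsto_charFunDual κ (fun t => hmap (t.1, t.2.2)) (fun t => hmap t.2)
    (by fun_prop) (by fun_prop) _ _ ?_ ?_ hconv L
  · intro n
    rw [← m1 n, Measure.map_map (by fun_prop) (by fun_prop)]
    rfl
  · intro n
    rw [← m2 n, Measure.map_map (by fun_prop) (by fun_prop)]
    rfl

include hb in
/-- The fixed point of the joint recursion is unique in the class of finite `E (UX)²`. -/
theorem joint_unique (hD : D.map (fun x => -x) = D) (hA : A2 D ≠ ∞)
    (π π' : Measure (ℝ × ℝ)) [IsProbabilityMeasure π] [IsProbabilityMeasure π']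
    (hπ : TT lam (D.prod D) (FU b) π = π) (hπ' : TT lam (D.prod D) (FU b) π' = π')
    (h2 : ∫⁻ q, ENNReal.ofReal ((q.1 * cl q.2) ^ 2) ∂π ≠ ∞)
    (h2' : ∫⁻ q, ENNReal.ofReal ((q.1 * cl q.2) ^ 2) ∂π' ≠ ∞) : π = π' := by
  have p1 : IsProbabilityMeasure (π.map Prod.snd) :=
    Measure.isProbabilityMeasure_map measurable_snd.aemeasurable
  have p2 : IsProbabilityMeasure (π'.map Prod.snd) :=
    Measure.isProbabilityMeasure_map measurable_snd.aemeasurable
  have f1 : (Cm b lam (D.prod D) (π.map Prod.snd)).map Xc = π.map Prod.snd := by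
    rw [← TU_snd, hπ]
  have f2 : (Cm b lam (D.prod D) (π'.map Prod.snd)).map Xc = π'.map Prod.snd := by
    rw [← TU_snd, hπ']
  have hμ := mu_unique hb lam D (π.map Prod.snd) (π'.map Prod.snd) hA f1 f2
  have key : π.map hmap = π'.map hmap := by
    have i1 : IsProbabilityMeasure (π.map hmap) :=
      Measure.isProbabilityMeasure_map hmap_measurable.aemeasurable
    have i2 : IsProbabilityMeasure (π'.map hmap) :=
      Measure.isProbabilityMeasure_map hmap_measurable.aemeasurable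
    apply Measure.ext_of_charFunDual
    ext L
    have c1 := joint_conv hb lam D hD hA _ f1 π rfl hπ h2 L
    have c2 := joint_conv hb lam D hD hA _ f2 π' rfl hπ' h2' L
    rw [← hμ] at c2
    exact tendsto_nhds_unique c1 c2
  -- recover the law from that of `(u x, x)`
  have hrec : ∀ (σ : Measure (ℝ × ℝ)) [IsProbabilityMeasure σ],
      (Cm b lam (D.prod D) (σ.map Prod.snd)).map Xc = σ.map Prod.snd →
      σ = (σ.map hmap).map (fun q => (q.1 / q.2, q.2)) := by
    intro σ _ hσ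
    rw [Measure.map_map (by fun_prop) (by fun_prop)]
    have hae : ∀ᵐ q ∂σ, 0 < q.2 ∧ q.2 ≤ 1 := by
      have := ae_pos lam D _ hσ
      exact ae_of_ae_map measurable_snd.aemeasurable this
    conv_lhs => rw [← Measure.map_id (μ := σ)]
    apply Measure.map_congr
    filter_upwards [hae] with q hq
    simp only [id, Function.comp, hmap]
    rw [cl_of_mem hq.1.le hq.2]
    ext
    · simp only
      field_simp [hq.1.ne']
    · rfl
  rw [hrec π f1, hrec π' f2, key]

end jointUnique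

end Pool.Agent.R965.SG
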