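import Pool.Agent.R965.SG.Tree

open MeasureTheory ProbabilityTheory Finset
open scoped ENNReal NNReal BigOperators

namespace Pool.Agent.R965.SG

/-- clipping to `[0,1]` -/
noncomputable def cl (x : ℝ) : ℝ := max 0 (min x 1)

lemma cl_nonneg (x : ℝ) : 0 ≤ cl x := le_max_left _ _
lemma cl_le_one (x : ℝ) : cl x ≤ 1 := max_le (by norm_num) (min_le_right _ _)
lemma cl_of_mem {x : ℝ} (h0 : 0 ≤ x) (h1 : x ≤ 1) : cl x = x := by
  unfold cl; rw [min_eq_left h1, max_eq_right h0]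
lemma cl_zero : cl 0 = 0 := cl_of_mem le_rfl zero_le_one
lemma cl_cl (x : ℝ) : cl (cl x) = cl x := cl_of_mem (cl_nonneg x) (cl_le_one x)
@[fun_prop] lemma measurable_cl : Measurable cl := by unfold cl; fun_prop
@[fun_prop] lemma continuous_cl : Continuous cl := by unfold cl; fun_prop

/-- `W = 1 + b ξ² x` -/
noncomputable def W (b : ℝ) (m : ℝ × ℝ) (x : ℝ) : ℝ := 1 + b * m.1 ^ 2 * cl x

/-- `b ζ² / W` -/
noncomputable def sw (b : ℝ) (z : (ℝ × ℝ) × ℝ) : ℝ≥0 := Real.toNNReal (b * z.1.2 ^ 2 / W b z.1 z.2)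

/-- `X = 1/(1+c)` -/
noncomputable def Xc (c : ℝ≥0) : ℝ := 1 / (1 + (c : ℝ))

@[fun_prop] lemma measurable_W (b : ℝ) : Measurable (fun z : (ℝ × ℝ) × ℝ => W b z.1 z.2) := by
  unfold W; fun_prop
@[fun_prop] lemma measurable_sw (b : ℝ) : Measurable (sw b) := by
  unfold sw; fun_prop
@[fun_prop] lemma measurable_Xc : Measurable Xc := by
  unfold Xc; fun_prop

lemma Xc_pos (c : ℝ≥0) : 0 < Xc c := by unfold Xc; positivity
lemma Xc_le_one (c : ℝ≥0) : Xc c ≤ 1 := by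
  unfold Xc
  rw [div_le_one (by positivity)]
  have := c.2
  simp
lemma cl_Xc (c : ℝ≥0) : cl (Xc c) = Xc c := cl_of_mem (Xc_pos c).le (Xc_le_one c)

section basic

variable {b : ℝ} (hb : 0 < b)
include hb

lemma W_ge_one (m : ℝ × ℝ) (x : ℝ) : 1 ≤ W b m x := by
  unfold W
  have := cl_nonneg x
  have : 0 ≤ b * m.1 ^ 2 * cl x := by positivity
  linarith

lemma W_pos (m : ℝ × ℝ) (x : ℝ) : 0 < W b m x := lt_of_lt_of_le one_pos (W_ge_one hb m x)

lemma W_le (m : ℝ × ℝ) (x : ℝ) : W b m x ≤ 1 + b * m.1 ^ 2 := by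
  unfold W
  have h1 := cl_le_one x
  have h2 : 0 ≤ b * m.1 ^ 2 := by positivity
  nlinarith

lemma W_mono (m : ℝ × ℝ) {x x' : ℝ} (h : cl x ≤ cl x') : W b m x ≤ W b m x' := by
  unfold W
  have h2 : 0 ≤ b * m.1 ^ 2 := by positivity
  nlinarith

lemma sw_coe (m : ℝ × ℝ) (x : ℝ) : ((sw b (m, x) : ℝ≥0) : ℝ) = b * m.2 ^ 2 / W b m x := by
  unfold sw
  have := W_pos hb m x
  rw [Real.coe_toNNReal _ (by positivity)]

lemma sw_anti (m : ℝ × ℝ) {x x' : ℝ} (h : cl x ≤ cl x') : sw b (m, x') ≤ sw b (m, x) := by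
  rw [← NNReal.coe_le_coe, sw_coe hb, sw_coe hb]
  exact div_le_div_of_nonneg_left (by positivity) (W_pos hb m x) (W_mono hb m h)

omit hb in
lemma Xc_anti {c c' : ℝ≥0} (h : c ≤ c') : Xc c' ≤ Xc c := by
  unfold Xc
  have : (c : ℝ) ≤ c' := h
  exact one_div_le_one_div_of_le (by positivity) (by linarith)

lemma X_mono (m : ℝ × ℝ) (c : ℝ≥0) {x x' : ℝ} (h : cl x ≤ cl x') :
    Xc (sw b (m, x) + c) ≤ Xc (sw b (m, x') + c) :=
  Xc_anti (by gcongr; exact sw_anti hb m h)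

lemma XW_formula (m : ℝ × ℝ) (c : ℝ≥0) (x : ℝ) :
    Xc (sw b (m, x) + c) / W b m x = 1 / ((1 + c) * W b m x + b * m.2 ^ 2) := by
  have hW := W_pos hb m x
  unfold Xc
  rw [NNReal.coe_add, sw_coe hb]
  have hc := c.2
  have h1 : 0 < (1 + (c : ℝ)) * W b m x + b * m.2 ^ 2 := by
    have : 0 < (1 + (c : ℝ)) * W b m x := by positivity
    have : 0 ≤ b * m.2 ^ 2 := by positivity
    linarith
  have h2 : 0 < 1 + (b * m.2 ^ 2 / W b m x + (c : ℝ)) := by positivity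
  rw [div_div, div_eq_div_iff (by positivity) h1.ne']
  field_simp
  ring

lemma XW_anti (m : ℝ × ℝ) (c : ℝ≥0) {x x' : ℝ} (h : cl x ≤ cl x') :
    Xc (sw b (m, x') + c) / W b m x' ≤ Xc (sw b (m, x) + c) / W b m x := by
  rw [XW_formula hb, XW_formula hb]
  have hW := W_pos hb m x
  have hc := c.2
  apply one_div_le_one_div_of_le
  · have : 0 < (1 + (c : ℝ)) * W b m x := by positivity
    have : 0 ≤ b * m.2 ^ 2 := by positivity
    linarith
  · have := W_mono hb m h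
    have : (1 + (c : ℝ)) * W b m x ≤ (1 + (c : ℝ)) * W b m x' := by gcongr
    linarith

lemma clW_mono (m : ℝ × ℝ) {x x' : ℝ} (h : cl x ≤ cl x') :
    cl x / W b m x ≤ cl x' / W b m x' := by
  have hW := W_pos hb m x
  have hW' := W_pos hb m x'
  rw [div_le_div_iff₀ hW hW']
  unfold W
  nlinarith

end basic

/-- `X` as a function of the own law variable `x` and of `p = ((ξ,ζ), c)` -/
noncomputable def Xf (b : ℝ) (x : ℝ) (p : (ℝ × ℝ) × ℝ≥0) : ℝ := Xc (sw b (p.1, x) + p.2)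

/-- the weight `(b ξ ζ X / W)²` -/
noncomputable def Kf (b : ℝ) (x : ℝ) (p : (ℝ × ℝ) × ℝ≥0) : ℝ :=
  (b * p.1.1 * p.1.2) ^ 2 * (Xf b x p / W b p.1 x) ^ 2

lemma measurable_Xf2 (b : ℝ) :
    Measurable (fun q : ℝ × ((ℝ × ℝ) × ℝ≥0) => Xf b q.1 q.2) := by
  unfold Xf; fun_prop

lemma measurable_Kf2 (b : ℝ) :
    Measurable (fun q : ℝ × ((ℝ × ℝ) × ℝ≥0) => Kf b q.1 q.2) := by
  have h1 := measurable_Xf2 b
  have h2 : Measurable (fun q : ℝ × ((ℝ × ℝ) × ℝ≥0) => W b q.2.1 q.1) :=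
    (measurable_W b).comp ((measurable_fst.comp measurable_snd).prodMk measurable_fst)
  unfold Kf
  exact (by fun_prop : Measurable (fun q : ℝ × ((ℝ × ℝ) × ℝ≥0) =>
    (b * q.2.1.1 * q.2.1.2) ^ 2)).mul ((h1.div h2).pow_const 2)

lemma measurable_Xf (b x : ℝ) : Measurable (Xf b x) := by
  change Measurable (fun p : (ℝ × ℝ) × ℝ≥0 => Xc (sw b (p.1, x) + p.2))
  fun_prop

lemma measurable_Kf (b x : ℝ) : Measurable (Kf b x) := by
  have h1 := measurable_Xf b x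
  have h2 : Measurable (fun p : (ℝ × ℝ) × ℝ≥0 => W b p.1 x) := by
    unfold W; fun_prop
  change Measurable (fun p : (ℝ × ℝ) × ℝ≥0 =>
    (b * p.1.1 * p.1.2) ^ 2 * (Xf b x p / W b p.1 x) ^ 2)
  fun_prop

lemma Kf_nonneg (b x : ℝ) (p) : 0 ≤ Kf b x p := by unfold Kf; positivity

lemma Xf_pos (b x : ℝ) (p) : 0 < Xf b x p := Xc_pos _
lemma Xf_le_one (b x : ℝ) (p) : Xf b x p ≤ 1 := Xc_le_one _
lemma cl_Xf (b x : ℝ) (p) : cl (Xf b x p) = Xf b x p := cl_Xc _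

/-- The weighted transfer operator. -/
noncomputable def LO (b : ℝ) (lam : ℝ≥0) (M : Measure ((ℝ × ℝ) × ℝ≥0))
    (g : ℝ → ℝ≥0∞) (x : ℝ) : ℝ≥0∞ :=
  lam * ∫⁻ p, ENNReal.ofReal (Kf b x p) * g (Xf b x p) ∂M

def Anti (g : ℝ → ℝ≥0∞) : Prop := ∀ x x', cl x ≤ cl x' → g x' ≤ g x
def Mon (g : ℝ → ℝ≥0∞) : Prop := ∀ x x', cl x ≤ cl x' →
  ENNReal.ofReal (cl x ^ 2) * g x ≤ ENNReal.ofReal (cl x' ^ 2) * g x'

section LOp

variable {b : ℝ} (lam : ℝ≥0) (M : Measure ((ℝ × ℝ) × ℝ≥0))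

lemma LO_mono {g g' : ℝ → ℝ≥0∞} (h : ∀ x, g x ≤ g' x) (x : ℝ) :
    LO b lam M g x ≤ LO b lam M g' x := by
  unfold LO
  gcongr
  exact h _

lemma LO_integrand {g : ℝ → ℝ≥0∞} (hg : Measurable g) (x : ℝ) :
    Measurable (fun p => ENNReal.ofReal (Kf b x p) * g (Xf b x p)) :=
  (measurable_Kf b x).ennreal_ofReal.mul (hg.comp (measurable_Xf b x))

lemma LO_const_mul (k : ℝ≥0∞) {g : ℝ → ℝ≥0∞} (hg : Measurable g) (x : ℝ) :
    LO b lam M (fun y => k * g y) x = k * LO b lam M g x := by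
  unfold LO
  rw [mul_left_comm, ← lintegral_const_mul _ (LO_integrand hg x)]
  congr 1
  refine lintegral_congr fun c => ?_
  ring

lemma LO_tsum {g : ℕ → ℝ → ℝ≥0∞} (hg : ∀ n, Measurable (g n)) (x : ℝ) :
    LO b lam M (fun y => ∑' n, g n y) x = ∑' n, LO b lam M (g n) x := by
  unfold LO
  rw [ENNReal.tsum_mul_left, ← lintegral_tsum (fun n => (LO_integrand (hg n) x).aemeasurable)]
  congr 1
  refine lintegral_congr fun c => ?_
  rw [ENNReal.tsum_mul_left]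

lemma LO_measurable [SFinite M] {g : ℝ → ℝ≥0∞} (hg : Measurable g) :
    Measurable (LO b lam M g) := by
  have h : Measurable (fun q : ℝ × ((ℝ × ℝ) × ℝ≥0) =>
      ENNReal.ofReal (Kf b q.1 q.2) * g (Xf b q.1 q.2)) :=
    (measurable_Kf2 b).ennreal_ofReal.mul (hg.comp (measurable_Xf2 b))
  exact h.lintegral_prod_right'.const_mul _

variable (hb : 0 < b)
include hb

lemma Xf_mono (p) {x x' : ℝ} (h : cl x ≤ cl x') : Xf b x p ≤ Xf b x' p :=
  X_mono hb p.1 p.2 h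

lemma Kf_anti (p) {x x' : ℝ} (h : cl x ≤ cl x') : Kf b x' p ≤ Kf b x p := by
  unfold Kf
  have h1 := XW_anti hb p.1 p.2 h
  have h2 : 0 ≤ Xf b x' p / W b p.1 x' := div_nonneg (Xf_pos _ _ _).le (W_pos hb _ _).le
  apply mul_le_mul_of_nonneg_left _ (by positivity)
  exact pow_le_pow_left₀ h2 h1 2

lemma LO_anti {g : ℝ → ℝ≥0∞} (hA : Anti g) : Anti (LO b lam M g) := by
  intro x x' h
  unfold LO
  apply mul_le_mul_right
  apply lintegral_mono
  intro p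
  apply mul_le_mul' (ENNReal.ofReal_le_ofReal (Kf_anti hb p h))
  apply hA
  rw [cl_Xf, cl_Xf]
  exact Xf_mono hb p h

lemma LO_mon {g : ℝ → ℝ≥0∞} (hg : Measurable g) (hM : Mon g) : Mon (LO b lam M g) := by
  have key : ∀ x, ENNReal.ofReal (cl x ^ 2) * LO b lam M g x
      = lam * ∫⁻ p, ENNReal.ofReal ((b * p.1.1 * p.1.2) ^ 2 * (cl x / W b p.1 x) ^ 2)
        * (ENNReal.ofReal (cl (Xf b x p) ^ 2) * g (Xf b x p)) ∂M := by
    intro x
    unfold LO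
    rw [mul_left_comm, ← lintegral_const_mul _ (LO_integrand hg x)]
    congr 1
    refine lintegral_congr fun p => ?_
    rw [← mul_assoc, ← mul_assoc]
    congr 1
    rw [← ENNReal.ofReal_mul (by positivity), ← ENNReal.ofReal_mul (by positivity), cl_Xf]
    congr 1
    unfold Kf
    ring
  intro x x' h
  rw [key, key]
  apply mul_le_mul_right
  apply lintegral_mono
  intro p
  apply mul_le_mul'
  · apply ENNReal.ofReal_le_ofReal
    apply mul_le_mul_of_nonneg_left _ (by positivity)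
    exact pow_le_pow_left₀ (div_nonneg (cl_nonneg _) (W_pos hb p.1 x).le) (clW_mono hb p.1 h) 2
  · apply hM
    rw [cl_Xf, cl_Xf]
    exact Xf_mono hb p h

end LOp

end Pool.Agent.R965.SG
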