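import Pool.Agent.R965.SG.Base

open MeasureTheory ProbabilityTheory Finset
open scoped ENNReal NNReal BigOperators

namespace Pool.Agent.R965.SG

/-- A self-similar probability space: a random tree whose root carries a Poisson number, and an
i.i.d. sequence of (mark, subtree) pairs. -/
theorem exists_tree (lam : ℝ≥0) {M : Type} [MeasurableSpace M] (ρ : Measure M)
    [IsProbabilityMeasure ρ] :
    ∃ (Ω : Type) (_ : MeasurableSpace Ω) (P : Measure Ω) (τ : Ω → ℕ × (ℕ → M × Ω)),
      IsProbabilityMeasure P ∧ Measurable τ ∧ P.map τ = Q lam (ρ.prod P) := by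
  let e : Option (ℕ × ℕ) ≃ ℕ := Denumerable.eqv (Option (ℕ × ℕ))
  let νE : Measure (ℕ × M) := (poissonMeasure lam).prod ρ
  let P0 : Measure (ℕ → ℕ × M) := Measure.infinitePi (fun _ : ℕ => νE)
  have hP0 : IsProbabilityMeasure P0 := by infer_instance
  -- root decomposition
  let sub : (ℕ → ℕ × M) → (ℕ → (ℕ → ℕ × M)) := fun ω k n => ω (e (some (k, n)))
  have hsub : Measurable sub := by
    refine measurable_pi_iff.2 fun k => measurable_pi_iff.2 fun n => ?_
    exact measurable_pi_apply _
  have hroot : P0.map (fun ω => (ω (e none), sub ω)) = νE.prod (sq P0) := by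
    have h1 := split_option e νE
    have hcur : Measurable (fun (f : ℕ × ℕ → ℕ × M) (k n : ℕ) => f (k, n)) := by fun_prop
    have h2 : (Measure.infinitePi (fun _ : ℕ × ℕ => νE)).map
        (fun (f : ℕ × ℕ → ℕ × M) (k n : ℕ) => f (k, n)) = sq P0 :=
      Measure.infinitePi_map_curry (ι := ℕ) (κ := ℕ) (fun _ _ => νE)
    rw [← h2]
    have h3 : νE.prod ((Measure.infinitePi (fun _ : ℕ × ℕ => νE)).map
        (fun (f : ℕ × ℕ → ℕ × M) (k n : ℕ) => f (k, n)))
        = (νE.prod (Measure.infinitePi (fun _ : ℕ × ℕ => νE))).map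
          (Prod.map id (fun (f : ℕ × ℕ → ℕ × M) (k n : ℕ) => f (k, n))) := by
      rw [← Measure.map_prod_map _ _ measurable_id hcur, Measure.map_id]
    rw [h3, ← h1, Measure.map_map (by fun_prop) (by fun_prop)]
    rfl
  -- the space without root mark
  let Ω : Type := ℕ × (ℕ → (ℕ → ℕ × M))
  let P : Measure Ω := (poissonMeasure lam).prod (sq P0)
  have hP : IsProbabilityMeasure P := by infer_instance
  let σ : (ℕ → ℕ × M) → M × Ω := fun ω => ((ω (e none)).2, ((ω (e none)).1, sub ω))
  have hσ : Measurable σ := by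
    have : Measurable (fun ω : ℕ → ℕ × M => ω (e none)) := measurable_pi_apply _
    exact (measurable_snd.comp this).prodMk ((measurable_fst.comp this).prodMk hsub)
  have hσP : P0.map σ = ρ.prod P := by
    have h1 : σ = (fun q : (ℕ × M) × (ℕ → (ℕ → ℕ × M)) => (q.1.2, (q.1.1, q.2)))
        ∘ (fun ω => (ω (e none), sub ω)) := rfl
    rw [h1, ← Measure.map_map (by fun_prop) (by fun_prop), hroot]
    have h2 : (fun q : (ℕ × M) × (ℕ → (ℕ → ℕ × M)) => (q.1.2, (q.1.1, q.2)))
        = (MeasurableEquiv.prodAssoc (α := M) (β := ℕ) (γ := ℕ → (ℕ → ℕ × M)))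
          ∘ (Prod.map Prod.swap id) := rfl
    rw [h2, ← Measure.map_map (MeasurableEquiv.measurable _)
      ((measurable_swap).prodMap measurable_id)]
    rw [← Measure.map_prod_map _ _ measurable_swap measurable_id, Measure.map_id]
    have h3 : νE.map Prod.swap = ρ.prod (poissonMeasure lam) := Measure.prod_swap
    rw [h3]
    exact Measure.prodAssoc_prod
  refine ⟨Ω, inferInstance, P, fun q => (q.1, fun k => σ (q.2 k)), hP, ?_, ?_⟩
  · refine measurable_fst.prodMk (measurable_pi_iff.2 fun k => ?_)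
    exact hσ.comp ((measurable_pi_apply k).comp measurable_snd)
  · rw [← hσP]
    exact Q_map lam P0 σ hσ

end Pool.Agent.R965.SG
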